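import Mathlib
import Pool.Agent.H8.SiegelComp

/-!
# [H69 AL] Codes of polynomials in two variables: coefficients, equality, heights, degrees

`Code` and `toPoly` are those of `Pool.Agent.H8.Siegel`: a list of terms `(p, q, i, j)` stands for the sum of the
`(p - q) x^i y^j`.
-/

namespace Pool.Agent.H69.AL

open MvPolynomial Pool.Agent.H8.Siegel

/-! Projections. -/

theorem pr1 {α : Type*} [Primcodable α] {f : α → T4} (h : Primrec f) : Primrec fun a => (f a).1 :=
  Primrec.fst.comp h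
theorem pr2 {α : Type*} [Primcodable α] {f : α → T4} (h : Primrec f) : Primrec fun a => (f a).2.1 :=
  Primrec.fst.comp (Primrec.snd.comp h)
theorem pr3 {α : Type*} [Primcodable α] {f : α → T4} (h : Primrec f) : Primrec fun a => (f a).2.2.1 :=
  Primrec.fst.comp (Primrec.snd.comp (Primrec.snd.comp h))
theorem pr4 {α : Type*} [Primcodable α] {f : α → T4} (h : Primrec f) : Primrec fun a => (f a).2.2.2 :=
  Primrec.snd.comp (Primrec.snd.comp (Primrec.snd.comp h))
theorem mk4 {α : Type*} [Primcodable α] {f g h k : α → ℕ} (hf : Primrec f) (hg : Primrec g)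
    (hh : Primrec h) (hk : Primrec k) : Primrec fun a => ((f a, g a, h a, k a) : T4) :=
  Primrec.pair hf (Primrec.pair hg (Primrec.pair hh hk))

/-! Negation. -/

/-- minus a code -/
def negC (c : Code) : Code := c.map fun t => (t.2.1, t.1, t.2.2.1, t.2.2.2)

theorem toPoly_negC (c : Code) : toPoly (negC c) = -toPoly c := by
  induction c with
  | nil => simp [negC]
  | cons t c ih =>
    have h : negC (t :: c) = (t.2.1, t.1, t.2.2.1, t.2.2.2) :: negC c := rfl
    rw [h, toPoly_cons, toPoly_cons, ih, neg_add]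
    congr 1
    simp only [term]
    rw [← neg_mul, ← neg_mul, ← map_neg, neg_sub]

theorem primrec_negC : Primrec negC := by
  unfold negC
  refine Primrec.list_map Primrec.id ?_
  exact mk4 (pr2 Primrec.snd) (pr1 Primrec.snd) (pr3 Primrec.snd) (pr4 Primrec.snd)

/-! Constants. -/

/-- the code of the constant `p - q` -/
def constC (z : ℕ × ℕ) : Code := [(z.1, z.2, 0, 0)]

theorem toPoly_constC (z : ℕ × ℕ) : toPoly (constC z) = C ((z.1 : ℤ) - z.2) := by
  simp [constC, term]

theorem primrec_constC : Primrec constC := by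
  unfold constC
  exact Primrec.list_cons.comp (mk4 Primrec.fst Primrec.snd (Primrec.const 0) (Primrec.const 0))
    (Primrec.const [])

/-! Coefficients. -/

/-- the positive part of the coefficient -/
def cP (c : Code) (i j : ℕ) : ℕ := (c.map fun t => if t.2.2.1 = i ∧ t.2.2.2 = j then t.1 else 0).sum
/-- the negative part of the coefficient -/
def cN (c : Code) (i j : ℕ) : ℕ := (c.map fun t => if t.2.2.1 = i ∧ t.2.2.2 = j then t.2.1 else 0).sum

theorem coeff_term (t : T4) (m : Fin 2 →₀ ℕ) :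
    coeff m (term t) = if t.2.2.1 = m 0 ∧ t.2.2.2 = m 1 then (t.1 : ℤ) - t.2.1 else 0 := by
  have h : term t = monomial (Finsupp.single 0 t.2.2.1 + Finsupp.single 1 t.2.2.2)
      ((t.1 : ℤ) - t.2.1) := by
    rw [term, MvPolynomial.X_pow_eq_monomial, MvPolynomial.X_pow_eq_monomial, C_mul_monomial,
      monomial_mul]
    simp
  rw [h, coeff_monomial]
  have e : (Finsupp.single 0 t.2.2.1 + Finsupp.single 1 t.2.2.2 = m) ↔
      (t.2.2.1 = m 0 ∧ t.2.2.2 = m 1) := by
    constructor
    · intro hm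
      rw [← hm]
      simp
    · rintro ⟨h0, h1⟩
      ext i
      fin_cases i
      · simp [h0]
      · simp [h1]
  by_cases hm : t.2.2.1 = m 0 ∧ t.2.2.2 = m 1
  · rw [if_pos (e.2 hm), if_pos hm]
  · rw [if_neg (fun h => hm (e.1 h)), if_neg hm]

theorem coeff_toPoly (c : Code) (m : Fin 2 →₀ ℕ) :
    coeff m (toPoly c) = (cP c (m 0) (m 1) : ℤ) - cN c (m 0) (m 1) := by
  induction c with
  | nil => simp [cP, cN]
  | cons t c ih =>
    rw [toPoly_cons, coeff_add, ih, coeff_term]
    simp only [cP, cN, List.map_cons, List.sum_cons]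
    by_cases hm : t.2.2.1 = m 0 ∧ t.2.2.2 = m 1
    · rw [if_pos hm, if_pos hm, if_pos hm]
      push_cast
      ring
    · rw [if_neg hm, if_neg hm, if_neg hm]
      push_cast
      ring

theorem primrec_cP : Primrec fun p : Code × ℕ × ℕ => cP p.1 p.2.1 p.2.2 := by
  unfold cP
  simp only [sum_map_eq_foldr]
  refine Primrec.list_foldr Primrec.fst (Primrec.const 0)
    (h := fun (p : Code × ℕ × ℕ) (q : T4 × ℕ) =>
      (if q.1.2.2.1 = p.2.1 ∧ q.1.2.2.2 = p.2.2 then q.1.1 else 0) + q.2) ?_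
  have x : Primrec fun q : (Code × ℕ × ℕ) × (T4 × ℕ) => q.1.2.1 :=
    Primrec.fst.comp (Primrec.snd.comp Primrec.fst)
  have y : Primrec fun q : (Code × ℕ × ℕ) × (T4 × ℕ) => q.1.2.2 :=
    Primrec.snd.comp (Primrec.snd.comp Primrec.fst)
  have t : Primrec fun q : (Code × ℕ × ℕ) × (T4 × ℕ) => q.2.1 := Primrec.fst.comp Primrec.snd
  have s : Primrec fun q : (Code × ℕ × ℕ) × (T4 × ℕ) => q.2.2 := Primrec.snd.comp Primrec.snd
  refine Primrec.nat_add.comp (Primrec.ite ?_ (pr1 t) (Primrec.const 0)) s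
  exact (PrimrecRel.comp Primrec.eq (pr3 t) x).and (PrimrecRel.comp Primrec.eq (pr4 t) y)

theorem primrec_cN : Primrec fun p : Code × ℕ × ℕ => cN p.1 p.2.1 p.2.2 := by
  unfold cN
  simp only [sum_map_eq_foldr]
  refine Primrec.list_foldr Primrec.fst (Primrec.const 0)
    (h := fun (p : Code × ℕ × ℕ) (q : T4 × ℕ) =>
      (if q.1.2.2.1 = p.2.1 ∧ q.1.2.2.2 = p.2.2 then q.1.2.1 else 0) + q.2) ?_
  have x : Primrec fun q : (Code × ℕ × ℕ) × (T4 × ℕ) => q.1.2.1 :=
    Primrec.fst.comp (Primrec.snd.comp Primrec.fst)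
  have y : Primrec fun q : (Code × ℕ × ℕ) × (T4 × ℕ) => q.1.2.2 :=
    Primrec.snd.comp (Primrec.snd.comp Primrec.fst)
  have t : Primrec fun q : (Code × ℕ × ℕ) × (T4 × ℕ) => q.2.1 := Primrec.fst.comp Primrec.snd
  have s : Primrec fun q : (Code × ℕ × ℕ) × (T4 × ℕ) => q.2.2 := Primrec.snd.comp Primrec.snd
  refine Primrec.nat_add.comp (Primrec.ite ?_ (pr2 t) (Primrec.const 0)) s
  exact (PrimrecRel.comp Primrec.eq (pr3 t) x).and (PrimrecRel.comp Primrec.eq (pr4 t) y)

theorem cP_of_not_mem (c : Code) (i j : ℕ) (h : ∀ t ∈ c, ¬(t.2.2.1 = i ∧ t.2.2.2 = j)) :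
    cP c i j = 0 ∧ cN c i j = 0 := by
  induction c with
  | nil => simp [cP, cN]
  | cons t c ih =>
    have h1 := h t List.mem_cons_self
    have h2 := ih fun s hs => h s (List.mem_cons_of_mem _ hs)
    simp only [cP, cN, List.map_cons, List.sum_cons, if_neg h1, zero_add] at h2 ⊢
    exact h2

/-! Equality of polynomials. -/

/-- the codes stand for the same polynomial -/
def eqC (c d : Code) : Prop := ∀ t ∈ c ++ d, cP c t.2.2.1 t.2.2.2 + cN d t.2.2.1 t.2.2.2 =
  cP d t.2.2.1 t.2.2.2 + cN c t.2.2.1 t.2.2.2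

instance (c d : Code) : Decidable (eqC c d) := by unfold eqC; infer_instance

/-- the exponents `(i, j)` -/
noncomputable def ex (i j : ℕ) : Fin 2 →₀ ℕ := Finsupp.single 0 i + Finsupp.single 1 j

@[simp] theorem ex_zero (i j : ℕ) : ex i j 0 = i := by simp [ex]
@[simp] theorem ex_one (i j : ℕ) : ex i j 1 = j := by simp [ex]

theorem ex_eta (m : Fin 2 →₀ ℕ) : ex (m 0) (m 1) = m := by
  ext i
  fin_cases i
  · simp
  · simp

theorem coeff_ex (c : Code) (i j : ℕ) : coeff (ex i j) (toPoly c) = (cP c i j : ℤ) - cN c i j := by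
  rw [coeff_toPoly, ex_zero, ex_one]

theorem eqC_iff (c d : Code) : eqC c d ↔ toPoly c = toPoly d := by
  constructor
  · intro h
    ext m
    rw [coeff_toPoly, coeff_toPoly]
    by_cases hm : ∃ t ∈ c ++ d, t.2.2.1 = m 0 ∧ t.2.2.2 = m 1
    · obtain ⟨t, ht, h0, h1⟩ := hm
      have := h t ht
      rw [h0, h1] at this
      omega
    · have hc := cP_of_not_mem c (m 0) (m 1)
        fun t ht h2 => hm ⟨t, List.mem_append.2 (Or.inl ht), h2⟩
      have hd := cP_of_not_mem d (m 0) (m 1)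
        fun t ht h2 => hm ⟨t, List.mem_append.2 (Or.inr ht), h2⟩
      rw [hc.1, hc.2, hd.1, hd.2]
  · intro h t _
    have h1 := coeff_ex c t.2.2.1 t.2.2.2
    have h2 := coeff_ex d t.2.2.1 t.2.2.2
    rw [h, h2] at h1
    omega

theorem primrec_eqC : PrimrecRel eqC := by
  unfold eqC
  have key : PrimrecRel fun (t : T4) (p : Code × Code) =>
      cP p.1 t.2.2.1 t.2.2.2 + cN p.2 t.2.2.1 t.2.2.2 =
        cP p.2 t.2.2.1 t.2.2.2 + cN p.1 t.2.2.1 t.2.2.2 := by
    have i3 : Primrec fun q : T4 × (Code × Code) => q.1.2.2.1 := pr3 Primrec.fst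
    have i4 : Primrec fun q : T4 × (Code × Code) => q.1.2.2.2 := pr4 Primrec.fst
    have c1 : Primrec fun q : T4 × (Code × Code) => q.2.1 := Primrec.fst.comp Primrec.snd
    have c2 : Primrec fun q : T4 × (Code × Code) => q.2.2 := Primrec.snd.comp Primrec.snd
    refine PrimrecRel.comp Primrec.eq (Primrec.nat_add.comp ?_ ?_) (Primrec.nat_add.comp ?_ ?_)
    · exact primrec_cP.comp (Primrec.pair c1 (Primrec.pair i3 i4))
    · exact primrec_cN.comp (Primrec.pair c2 (Primrec.pair i3 i4))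
    · exact primrec_cP.comp (Primrec.pair c2 (Primrec.pair i3 i4))
    · exact primrec_cN.comp (Primrec.pair c1 (Primrec.pair i3 i4))
  exact (PrimrecRel.forall_mem_list key).comp
    (Primrec.list_append.comp Primrec.fst Primrec.snd) Primrec.id

end Pool.Agent.H69.AL
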