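import Mathlib
import Pool.Agent.H69.AL.CodeA

/-!
# [H69 AL] Codes of polynomials in two variables: conditions on the non-zero terms, weighted degrees, heights,
integer points, every polynomial has a code
-/

namespace Pool.Agent.H69.AL

open MvPolynomial Pool.Agent.H8.Siegel

/-! Non-zero coefficients. -/

/-- the coefficient of `x^i y^j` is not zero -/
def nz (c : Code) (i j : ℕ) : Prop := cP c i j ≠ cN c i j

instance (c : Code) (i j : ℕ) : Decidable (nz c i j) := by unfold nz; infer_instance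

theorem nz_iff (c : Code) (i j : ℕ) : nz c i j ↔ coeff (ex i j) (toPoly c) ≠ 0 := by
  rw [coeff_ex, nz, Ne, Ne, sub_eq_zero, Nat.cast_inj]

theorem primrec_nz : PrimrecPred fun p : Code × ℕ × ℕ => nz p.1 p.2.1 p.2.2 :=
  (PrimrecRel.comp Primrec.eq primrec_cP primrec_cN).not

/-- a condition on the exponents of all non-zero terms -/
def allC (R : ℕ → ℕ → Prop) (c : Code) : Prop :=
  ∀ t ∈ c, nz c t.2.2.1 t.2.2.2 → R t.2.2.1 t.2.2.2

theorem allC_iff (R : ℕ → ℕ → Prop) (c : Code) :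
    allC R c ↔ ∀ m, coeff m (toPoly c) ≠ 0 → R (m 0) (m 1) := by
  constructor
  · intro h m hm
    by_cases hm1 : ∃ t ∈ c, t.2.2.1 = m 0 ∧ t.2.2.2 = m 1
    · obtain ⟨t, ht, h0, h1⟩ := hm1
      have := h t ht
      rw [h0, h1] at this
      refine this ?_
      rw [nz_iff, ex_eta]
      exact hm
    · have hc := cP_of_not_mem c (m 0) (m 1) fun t ht h2 => hm1 ⟨t, ht, h2⟩
      exact absurd (by rw [coeff_toPoly, hc.1, hc.2]; simp) hm
  · intro h t _ hn
    rw [nz_iff] at hn
    have := h _ hn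
    rwa [ex_zero, ex_one] at this

theorem primrec_allC {α : Type*} [Primcodable α] {f : α → Code} {R : α → ℕ → ℕ → Prop}
    (hf : Primrec f) (hR : PrimrecPred fun p : α × ℕ × ℕ => R p.1 p.2.1 p.2.2) :
    PrimrecPred fun a => allC (R a) (f a) := by
  unfold allC
  have key : PrimrecRel fun (t : T4) (a : α) =>
      nz (f a) t.2.2.1 t.2.2.2 → R a t.2.2.1 t.2.2.2 := by
    have i3 : Primrec fun q : T4 × α => q.1.2.2.1 := pr3 Primrec.fst
    have i4 : Primrec fun q : T4 × α => q.1.2.2.2 := pr4 Primrec.fst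
    have h1 : PrimrecPred fun q : T4 × α => nz (f q.2) q.1.2.2.1 q.1.2.2.2 :=
      primrec_nz.comp (Primrec.pair (hf.comp Primrec.snd) (Primrec.pair i3 i4))
    have h2 : PrimrecPred fun q : T4 × α => R q.2 q.1.2.2.1 q.1.2.2.2 :=
      hR.comp (Primrec.pair Primrec.snd (Primrec.pair i3 i4))
    exact (h1.not.or h2).of_eq fun q => imp_iff_not_or.symm
  exact (PrimrecRel.forall_mem_list key).comp hf Primrec.id

/-! Weighted degrees. -/

/-- the largest `u i + v j` for the non-zero terms -/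
def wdC (u v : ℕ) (c : Code) : ℕ :=
  c.foldr (fun t s => max (if nz c t.2.2.1 t.2.2.2 then u * t.2.2.1 + v * t.2.2.2 else 0) s) 0

theorem foldr_max_le {α : Type*} (l : List α) (f : α → ℕ) (d : ℕ) :
    l.foldr (fun t s => max (f t) s) 0 ≤ d ↔ ∀ t ∈ l, f t ≤ d := by
  induction l with
  | nil => simp
  | cons a l ih => simp [ih]

theorem wdC_le (u v : ℕ) (c : Code) (d : ℕ) :
    wdC u v c ≤ d ↔ ∀ m, coeff m (toPoly c) ≠ 0 → u * m 0 + v * m 1 ≤ d := by
  rw [wdC, foldr_max_le, ← allC_iff (fun i j => u * i + v * j ≤ d), allC]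
  refine forall_congr' fun t => forall_congr' fun _ => ?_
  by_cases h : nz c t.2.2.1 t.2.2.2
  · simp [h]
  · simp [h]

theorem primrec_wdC : Primrec fun p : ℕ × ℕ × Code => wdC p.1 p.2.1 p.2.2 := by
  unfold wdC
  refine Primrec.list_foldr (Primrec.snd.comp Primrec.snd) (Primrec.const 0)
    (h := fun (p : ℕ × ℕ × Code) (q : T4 × ℕ) =>
      max (if nz p.2.2 q.1.2.2.1 q.1.2.2.2 then p.1 * q.1.2.2.1 + p.2.1 * q.1.2.2.2 else 0) q.2) ?_
  have u : Primrec fun q : (ℕ × ℕ × Code) × (T4 × ℕ) => q.1.1 := Primrec.fst.comp Primrec.fst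
  have v : Primrec fun q : (ℕ × ℕ × Code) × (T4 × ℕ) => q.1.2.1 :=
    Primrec.fst.comp (Primrec.snd.comp Primrec.fst)
  have c : Primrec fun q : (ℕ × ℕ × Code) × (T4 × ℕ) => q.1.2.2 :=
    Primrec.snd.comp (Primrec.snd.comp Primrec.fst)
  have t : Primrec fun q : (ℕ × ℕ × Code) × (T4 × ℕ) => q.2.1 := Primrec.fst.comp Primrec.snd
  have s : Primrec fun q : (ℕ × ℕ × Code) × (T4 × ℕ) => q.2.2 := Primrec.snd.comp Primrec.snd
  refine Primrec.nat_max.comp (Primrec.ite ?_ ?_ (Primrec.const 0)) s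
  · exact primrec_nz.comp (Primrec.pair c (Primrec.pair (pr3 t) (pr4 t)))
  · exact Primrec.nat_add.comp (Primrec.nat_mul.comp u (pr3 t)) (Primrec.nat_mul.comp v (pr4 t))

theorem totalDegree_le_iff (F : MvPolynomial (Fin 2) ℤ) (d : ℕ) :
    F.totalDegree ≤ d ↔ ∀ m, coeff m F ≠ 0 → 1 * m 0 + 1 * m 1 ≤ d := by
  have hs : ∀ m : Fin 2 →₀ ℕ, (m.sum fun _ e => e) = 1 * m 0 + 1 * m 1 := by
    intro m
    rw [Finsupp.sum_fintype _ _ (fun _ => rfl), Fin.sum_univ_two, one_mul, one_mul]
  rw [MvPolynomial.totalDegree, Finset.sup_le_iff]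
  refine forall_congr' fun m => ?_
  rw [MvPolynomial.mem_support_iff, hs m]

theorem degreeOf_le_iff' (F : MvPolynomial (Fin 2) ℤ) (i : Fin 2) (d : ℕ) :
    F.degreeOf i ≤ d ↔ ∀ m, coeff m F ≠ 0 → m i ≤ d := by
  rw [MvPolynomial.degreeOf_le_iff]
  refine forall_congr' fun m => ?_
  rw [MvPolynomial.mem_support_iff]

/-- total degree of a code -/
def tdC (c : Code) : ℕ := wdC 1 1 c
/-- degree in `x` of a code -/
def dxC (c : Code) : ℕ := wdC 1 0 c
/-- degree in `y` of a code -/
def dyC (c : Code) : ℕ := wdC 0 1 c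

theorem tdC_eq (c : Code) : tdC c = (toPoly c).totalDegree := by
  refine eq_of_forall_ge_iff fun d => ?_
  rw [tdC, wdC_le, totalDegree_le_iff]

theorem dxC_eq (c : Code) : dxC c = (toPoly c).degreeOf 0 := by
  refine eq_of_forall_ge_iff fun d => ?_
  rw [dxC, wdC_le, degreeOf_le_iff']
  simp

theorem dyC_eq (c : Code) : dyC c = (toPoly c).degreeOf 1 := by
  refine eq_of_forall_ge_iff fun d => ?_
  rw [dyC, wdC_le, degreeOf_le_iff']
  simp

theorem primrec_tdC : Primrec tdC :=
  primrec_wdC.comp (Primrec.pair (Primrec.const 1) (Primrec.pair (Primrec.const 1) Primrec.id))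
theorem primrec_dxC : Primrec dxC :=
  primrec_wdC.comp (Primrec.pair (Primrec.const 1) (Primrec.pair (Primrec.const 0) Primrec.id))
theorem primrec_dyC : Primrec dyC :=
  primrec_wdC.comp (Primrec.pair (Primrec.const 0) (Primrec.pair (Primrec.const 1) Primrec.id))

/-! Heights. -/

/-- the absolute value of the coefficient of `x^i y^j` -/
def ab (c : Code) (i j : ℕ) : ℕ := (cP c i j - cN c i j) + (cN c i j - cP c i j)

theorem ab_eq (c : Code) (i j : ℕ) : (ab c i j : ℤ) = |coeff (ex i j) (toPoly c)| := by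
  rw [coeff_ex, ab]
  rcases le_total (cP c i j) (cN c i j) with h | h
  · rw [abs_of_nonpos (by omega)]
    omega
  · rw [abs_of_nonneg (by omega)]
    omega

theorem primrec_ab : Primrec fun p : Code × ℕ × ℕ => ab p.1 p.2.1 p.2.2 :=
  Primrec.nat_add.comp (Primrec.nat_sub.comp primrec_cP primrec_cN)
    (Primrec.nat_sub.comp primrec_cN primrec_cP)

/-- the largest absolute value of a coefficient -/
def htC (c : Code) : ℕ := c.foldr (fun t s => max (ab c t.2.2.1 t.2.2.2) s) 0

theorem htC_le (c : Code) (H : ℕ) : htC c ≤ H ↔ ∀ m, |coeff m (toPoly c)| ≤ (H : ℤ) := by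
  rw [htC, foldr_max_le]
  constructor
  · intro h m
    by_cases hm1 : ∃ t ∈ c, t.2.2.1 = m 0 ∧ t.2.2.2 = m 1
    · obtain ⟨t, ht, h0, h1⟩ := hm1
      have := h t ht
      rw [h0, h1] at this
      rw [← ex_eta m, ← ab_eq]
      exact_mod_cast this
    · have hc := cP_of_not_mem c (m 0) (m 1) fun t ht h2 => hm1 ⟨t, ht, h2⟩
      rw [coeff_toPoly, hc.1, hc.2]
      simp
  · intro h t _
    have := h (ex t.2.2.1 t.2.2.2)
    rw [← ab_eq] at this
    exact_mod_cast this

theorem primrec_htC : Primrec htC := by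
  unfold htC
  refine Primrec.list_foldr Primrec.id (Primrec.const 0)
    (h := fun (c : Code) (q : T4 × ℕ) => max (ab c q.1.2.2.1 q.1.2.2.2) q.2) ?_
  have c : Primrec fun q : Code × (T4 × ℕ) => q.1 := Primrec.fst
  have t : Primrec fun q : Code × (T4 × ℕ) => q.2.1 := Primrec.fst.comp Primrec.snd
  have s : Primrec fun q : Code × (T4 × ℕ) => q.2.2 := Primrec.snd.comp Primrec.snd
  exact Primrec.nat_max.comp
    (primrec_ab.comp (Primrec.pair c (Primrec.pair (pr3 t) (pr4 t)))) s

/-! Integer points, given by pairs of natural numbers. -/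

/-- the integer `p - q` -/
def iv (z : ℕ × ℕ) : ℤ := (z.1 : ℤ) - z.2

theorem exists_iv (x : ℤ) : ∃ z : ℕ × ℕ, iv z = x := ⟨(x.toNat, (-x).toNat), by
  simp only [iv]
  omega⟩

/-- absolute value of `p - q` -/
def ivAbs (z : ℕ × ℕ) : ℕ := (z.1 - z.2) + (z.2 - z.1)

theorem ivAbs_eq (z : ℕ × ℕ) : (ivAbs z : ℤ) = |iv z| := by
  rw [ivAbs, iv]
  rcases le_total z.1 z.2 with h | h
  · rw [abs_of_nonpos (by omega)]
    omega
  · rw [abs_of_nonneg (by omega)]
    omega

theorem primrec_ivAbs : Primrec ivAbs :=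
  Primrec.nat_add.comp (Primrec.nat_sub.comp Primrec.fst Primrec.snd)
    (Primrec.nat_sub.comp Primrec.snd Primrec.fst)

/-- the integer point `(u, v)` is a zero of the code -/
def zeroC (c : Code) (u v : ℕ × ℕ) : Prop := eqC (compC c (constC u) (constC v)) []

instance (c : Code) (u v : ℕ × ℕ) : Decidable (zeroC c u v) := by unfold zeroC; infer_instance

theorem zeroC_iff (c : Code) (u v : ℕ × ℕ) :
    zeroC c u v ↔ eval ![iv u, iv v] (toPoly c) = 0 := by
  rw [zeroC, eqC_iff, toPoly_compC, toPoly_constC, toPoly_constC, toPoly_nil]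
  have h : aeval ![(C (iv u) : MvPolynomial (Fin 2) ℤ), C (iv v)] (toPoly c) =
      C (eval ![iv u, iv v] (toPoly c)) := by
    have h1 : ∀ p : MvPolynomial (Fin 2) ℤ,
        aeval ![(C (iv u) : MvPolynomial (Fin 2) ℤ), C (iv v)] p = C (eval ![iv u, iv v] p) := by
      intro p
      induction p using MvPolynomial.induction_on with
      | C a => simp
      | add p q hp hq => rw [map_add, map_add, map_add, hp, hq]
      | mul_X p i hp =>
        rw [map_mul, map_mul, map_mul, hp, aeval_X, eval_X]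
        fin_cases i
        · simp
        · simp
    exact h1 _
  have h2 : toPoly c = toPoly c := rfl
  simp only [iv] at h ⊢
  rw [h]
  exact C_eq_zero

theorem primrec_zeroC : PrimrecPred fun p : Code × (ℕ × ℕ) × (ℕ × ℕ) => zeroC p.1 p.2.1 p.2.2 := by
  unfold zeroC
  refine PrimrecRel.comp primrec_eqC (primrec_compC.comp (Primrec.pair Primrec.fst
    (Primrec.pair ?_ ?_))) (Primrec.const [])
  · exact primrec_constC.comp (Primrec.fst.comp Primrec.snd)
  · exact primrec_constC.comp (Primrec.snd.comp Primrec.snd)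

/-! Every polynomial has a code. -/

theorem exists_code (F : MvPolynomial (Fin 2) ℤ) : ∃ c : Code, toPoly c = F := by
  induction F using MvPolynomial.induction_on with
  | C a =>
    obtain ⟨z, hz⟩ := exists_iv a
    exact ⟨constC z, by rw [toPoly_constC, ← hz, iv]⟩
  | add p q hp hq =>
    obtain ⟨c, hc⟩ := hp
    obtain ⟨d, hd⟩ := hq
    exact ⟨c ++ d, by rw [toPoly_append, hc, hd]⟩
  | mul_X p i hp =>
    obtain ⟨c, hc⟩ := hp
    fin_cases i
    · exact ⟨mulC c [(1, 0, 1, 0)], by rw [toPoly_mulC, hc]; simp [term]⟩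
    · exact ⟨mulC c [(1, 0, 0, 1)], by rw [toPoly_mulC, hc]; simp [term]⟩

end Pool.Agent.H69.AL
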