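import Mathlib
import Pool.Agent.H69.AL.CodeB

/-!
# [H69 AL] Codes: univariate polynomials, homogenisation, values, the polynomials of the certificate

A code is also read as a polynomial in one variable (`uni`, the second exponent is ignored).
-/

namespace Pool.Agent.H69.AL

open MvPolynomial Pool.Agent.H8.Siegel

/-! Polynomials in one variable. -/

/-- one term, the second exponent is ignored -/
noncomputable def uterm (t : T4) : Polynomial ℤ :=
  Polynomial.C ((t.1 : ℤ) - (t.2.1 : ℤ)) * Polynomial.X ^ t.2.2.1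

/-- the polynomial in one variable given by a list of terms (the second exponent is ignored) -/
noncomputable def uni (c : Code) : Polynomial ℤ := (c.map uterm).sum

@[simp] theorem uni_nil : uni [] = 0 := rfl

@[simp] theorem uni_cons (t : T4) (c : Code) : uni (t :: c) = uterm t + uni c := by
  simp [uni]

@[simp] theorem uni_append (c d : Code) : uni (c ++ d) = uni c + uni d := by
  simp [uni]

theorem uterm_mulT (s t : T4) : uterm (mulT s t) = uterm s * uterm t := by
  obtain ⟨a, b, i, j⟩ := s
  obtain ⟨a', b', i', j'⟩ := t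
  simp only [uterm, mulT]
  push_cast
  simp only [map_sub, map_add, map_mul, pow_add]
  ring

theorem uni_eq_eval (c : Code) :
    uni c = aeval ![(Polynomial.X : Polynomial ℤ), 1] (toPoly c) := by
  induction c with
  | nil => simp
  | cons t c ih =>
    rw [uni_cons, toPoly_cons, map_add, ih]
    simp [uterm, term]

theorem uni_mulC (c d : Code) : uni (mulC c d) = uni c * uni d := by
  rw [uni_eq_eval, uni_eq_eval, uni_eq_eval, toPoly_mulC, map_mul]

theorem exists_uni (f : Polynomial ℤ) : ∃ c : Code, uni c = f := by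
  obtain ⟨c, hc⟩ := exists_code (Polynomial.aeval (X 0 : MvPolynomial (Fin 2) ℤ) f)
  refine ⟨c, ?_⟩
  rw [uni_eq_eval, hc]
  have h : ∀ g : Polynomial ℤ, aeval ![(Polynomial.X : Polynomial ℤ), 1]
      (Polynomial.aeval (X 0 : MvPolynomial (Fin 2) ℤ) g) = g := by
    intro g
    rw [← Polynomial.aeval_algHom_apply]
    simp
  exact h f

/-! Homogenisation. -/

/-- `P_l x^l y^(e-l)` -/
def homC (e : ℕ) (P : Code) : Code := P.map fun t => (t.1, t.2.1, t.2.2.1, e - t.2.2.1)

/-- for a polynomial `f` in one variable: the sum of the `f_l x^l y^(e-l)` -/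
noncomputable def hom (e : ℕ) (f : Polynomial ℤ) : MvPolynomial (Fin 2) ℤ :=
  f.sum fun l a => C a * X 0 ^ l * X 1 ^ (e - l)

theorem hom_add (e : ℕ) (f g : Polynomial ℤ) : hom e (f + g) = hom e f + hom e g := by
  rw [hom, Polynomial.sum_add_index]
  · rfl
  · intro i
    simp
  · intro i a b
    rw [map_add]
    ring

theorem toPoly_homC (e : ℕ) (P : Code) : toPoly (homC e P) = hom e (uni P) := by
  induction P with
  | nil => simp [homC, hom]
  | cons t P ih =>
    have h : homC e (t :: P) = (t.1, t.2.1, t.2.2.1, e - t.2.2.1) :: homC e P := rfl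
    rw [h, toPoly_cons, ih, uni_cons, hom_add]
    congr 1
    rw [hom, uterm, Polynomial.C_mul_X_pow_eq_monomial, Polynomial.sum_monomial_index]
    · rfl
    · simp

/-- the value of the homogenisation in a field -/
theorem aeval_hom {K : Type*} [Field K] (e : ℕ) (f : Polynomial ℤ) (hf : f.natDegree ≤ e)
    (a b : K) (hb : b ≠ 0) :
    aeval ![a, b] (hom e f) = b ^ e * Polynomial.aeval (a / b) f := by
  rw [Polynomial.aeval_eq_sum_range' (Nat.lt_succ_of_le hf), hom,
    Polynomial.sum_over_range' f (fun n => by simp) (e + 1) (Nat.lt_succ_of_le hf), map_sum,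
    Finset.mul_sum]
  refine Finset.sum_congr rfl fun l hl => ?_
  have hl' : l ≤ e := Nat.lt_succ_iff.1 (Finset.mem_range.1 hl)
  have h1 : b ^ e = b ^ l * b ^ (e - l) := by rw [← pow_add, Nat.add_sub_cancel' hl']
  rw [map_mul, map_mul, map_pow, map_pow, aeval_X, aeval_X, h1, zsmul_eq_mul]
  simp only [Matrix.cons_val_zero, Matrix.cons_val_one, eq_intCast, map_intCast, div_pow]
  field_simp

/-- the sum of the `P_l N^l x^(s(e-l))` -/
def HhC (P : Code) (e s : ℕ) (N : Code) : Code :=
  compC (homC e P) N (powC [(1, 0, 1, 0)] s)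

theorem toPoly_HhC (P : Code) (e s : ℕ) (N : Code) :
    toPoly (HhC P e s N) = aeval ![toPoly N, X 0 ^ s] (hom e (uni P)) := by
  have h : toPoly [(1, 0, 1, 0)] = X 0 := by simp [term]
  rw [HhC, toPoly_compC, toPoly_homC, toPoly_powC, h]

/-- `G(x - c y, y)` -/
def shC (G : Code) (c : ℕ) : Code := compC G [(1, 0, 1, 0), (0, c, 0, 1)] [(1, 0, 0, 1)]

theorem toPoly_shC (G : Code) (c : ℕ) :
    toPoly (shC G c) = aeval ![X 0 - C (c : ℤ) * X 1, X 1] (toPoly G) := by
  have h : toPoly [(1, 0, 1, 0), (0, c, 0, 1)] = X 0 - C (c : ℤ) * X 1 := by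
    simp [term, sub_eq_add_neg]
  have h1 : toPoly [(1, 0, 0, 1)] = X 1 := by simp [term]
  rw [shC, toPoly_compC, h, h1]

/-! Absolute values of values at integer points. -/

theorem aeval_C_C (u v : ℤ) (p : MvPolynomial (Fin 2) ℤ) :
    aeval ![(C u : MvPolynomial (Fin 2) ℤ), C v] p = C (eval ![u, v] p) := by
  induction p using MvPolynomial.induction_on with
  | C a => simp
  | add p q hp hq => rw [map_add, map_add, map_add, hp, hq]
  | mul_X p i hp =>
    rw [map_mul, map_mul, map_mul, hp, aeval_X, eval_X]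
    fin_cases i
    · simp
    · simp

/-- the absolute value of the value at the integer point `(u, v)` -/
def absV (c : Code) (u v : ℕ × ℕ) : ℕ := ab (compC c (constC u) (constC v)) 0 0

theorem absV_eq (c : Code) (u v : ℕ × ℕ) :
    (absV c u v : ℤ) = |eval ![iv u, iv v] (toPoly c)| := by
  have h := aeval_C_C (iv u) (iv v) (toPoly c)
  simp only [iv] at h
  have h0 : ex 0 0 = 0 := by simp [ex]
  rw [absV, ab_eq, toPoly_compC, toPoly_constC, toPoly_constC, h, h0, coeff_zero_C]
  rfl

/-! Primitive recursiveness. -/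

theorem primrec_homC : Primrec₂ homC := by
  unfold homC
  refine Primrec.list_map Primrec.snd ?_
  exact mk4 (pr1 Primrec.snd) (pr2 Primrec.snd) (pr3 Primrec.snd)
    (Primrec.nat_sub.comp (Primrec.fst.comp Primrec.fst) (pr3 Primrec.snd))

theorem primrec_HhC : Primrec fun p : Code × ℕ × ℕ × Code => HhC p.1 p.2.1 p.2.2.1 p.2.2.2 := by
  unfold HhC
  refine primrec_compC.comp (Primrec.pair ?_ (Primrec.pair ?_ ?_))
  · exact primrec_homC.comp (Primrec.fst.comp Primrec.snd) Primrec.fst
  · exact Primrec.snd.comp (Primrec.snd.comp Primrec.snd)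
  · exact primrec_powC.comp (Primrec.const _) (Primrec.fst.comp (Primrec.snd.comp Primrec.snd))

theorem primrec_shC : Primrec₂ shC := by
  unfold shC
  refine primrec_compC.comp (Primrec.pair Primrec.fst (Primrec.pair ?_ (Primrec.const _)))
  refine Primrec.list_cons.comp (Primrec.const _) (Primrec.list_cons.comp ?_ (Primrec.const []))
  exact mk4 (Primrec.const 0) Primrec.snd (Primrec.const 0) (Primrec.const 1)

theorem primrec_absV : Primrec fun p : Code × (ℕ × ℕ) × (ℕ × ℕ) => absV p.1 p.2.1 p.2.2 := by
  unfold absV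
  refine primrec_ab.comp (Primrec.pair (primrec_compC.comp (Primrec.pair Primrec.fst
    (Primrec.pair ?_ ?_))) (Primrec.const (0, 0)))
  · exact primrec_constC.comp (Primrec.fst.comp Primrec.snd)
  · exact primrec_constC.comp (Primrec.snd.comp Primrec.snd)

end Pool.Agent.H69.AL
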