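import Mathlib
import Pool.Agent.H69.AL.CodeC

/-!
# [H69 AL] A primitive recursive certificate that a polynomial has no real zero

`noRealC p g`: the values of `uni p` at the points `i/g`, `|i| ≤ M g`, are larger than the Lipschitz constant times
`1/g`, where `M` bounds all zeros.
-/

namespace Pool.Agent.H69.AL

open MvPolynomial Pool.Agent.H8.Siegel

/-- the largest first exponent in the list -/
def mxC (c : Code) : ℕ := c.foldr (fun t s => max t.2.2.1 s) 0
/-- the sum of all positive and negative parts -/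
def smC (c : Code) : ℕ := c.foldr (fun t s => (t.1 + t.2.1) + s) 0

@[simp] theorem smC_cons (t : T4) (c : Code) : smC (t :: c) = (t.1 + t.2.1) + smC c := rfl

theorem mxC_le (c : Code) (e : ℕ) : mxC c ≤ e ↔ ∀ t ∈ c, t.2.2.1 ≤ e := foldr_max_le c _ e

theorem natDegree_uterm_le (t : T4) : (uterm t).natDegree ≤ t.2.2.1 :=
  Polynomial.natDegree_C_mul_X_pow_le _ _

theorem natDegree_uni_le (c : Code) (e : ℕ) (h : mxC c ≤ e) : (uni c).natDegree ≤ e := by
  rw [mxC_le] at h
  induction c with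
  | nil => simp
  | cons t c ih =>
    rw [uni_cons]
    refine (Polynomial.natDegree_add_le _ _).trans (max_le ?_ ?_)
    · exact (natDegree_uterm_le t).trans (h t List.mem_cons_self)
    · exact ih fun s hs => h s (List.mem_cons_of_mem _ hs)

theorem abs_sub_le (p q : ℕ) : |(p : ℤ) - q| ≤ ((p + q : ℕ) : ℤ) := by
  rw [abs_le]
  constructor
  · push_cast; omega
  · push_cast; omega

theorem abs_coeff_uni_le (c : Code) (i : ℕ) : |(uni c).coeff i| ≤ (smC c : ℤ) := by
  induction c with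
  | nil => simp [smC]
  | cons t c ih =>
    rw [uni_cons, Polynomial.coeff_add, smC_cons, Nat.cast_add]
    refine (abs_add_le _ _).trans (add_le_add ?_ ih)
    rw [uterm, Polynomial.coeff_C_mul, Polynomial.coeff_X_pow]
    split_ifs
    · rw [mul_one]
      exact abs_sub_le _ _
    · rw [mul_zero, abs_zero]
      positivity

theorem pow_lip (M : ℝ) (hM : 1 ≤ M) (z u : ℝ) (hz : |z| ≤ M) (hu : |u| ≤ M) (i : ℕ) :
    |z ^ i - u ^ i| ≤ i * M ^ i * |z - u| := by
  induction i with
  | zero => simp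
  | succ i ih =>
    have h1 : z ^ (i + 1) - u ^ (i + 1) = z * (z ^ i - u ^ i) + u ^ i * (z - u) := by ring
    have h2 : |z * (z ^ i - u ^ i)| ≤ M * (i * M ^ i * |z - u|) := by
      rw [abs_mul]
      exact mul_le_mul hz ih (abs_nonneg _) (by linarith)
    have h3 : |u ^ i * (z - u)| ≤ M ^ (i + 1) * |z - u| := by
      rw [abs_mul, abs_pow]
      refine mul_le_mul_of_nonneg_right ?_ (abs_nonneg _)
      exact (pow_le_pow_left₀ (abs_nonneg _) hu i).trans (pow_le_pow_right₀ hM (Nat.le_succ i))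
    rw [h1]
    refine (abs_add_le _ _).trans ((add_le_add h2 h3).trans (le_of_eq ?_))
    push_cast
    ring

theorem lip (c : Code) (e M : ℕ) (he : mxC c ≤ e) (hM : 1 ≤ M) (z u : ℝ) (hz : |z| ≤ M)
    (hu : |u| ≤ M) : |Polynomial.aeval z (uni c) - Polynomial.aeval u (uni c)| ≤
      ((smC c * e * M ^ e : ℕ) : ℝ) * |z - u| := by
  rw [mxC_le] at he
  have hM' : (1 : ℝ) ≤ M := by exact_mod_cast hM
  induction c with
  | nil => simp [smC]
  | cons t c ih =>
    have h1 := ih fun s hs => he s (List.mem_cons_of_mem _ hs)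
    have ht := he t List.mem_cons_self
    rw [uni_cons, map_add, map_add, smC_cons]
    have h2 : |Polynomial.aeval z (uterm t) - Polynomial.aeval u (uterm t)| ≤
        (((t.1 + t.2.1) * e * M ^ e : ℕ) : ℝ) * |z - u| := by
      have h3 : Polynomial.aeval z (uterm t) - Polynomial.aeval u (uterm t) =
          (((t.1 : ℤ) - t.2.1 : ℤ) : ℝ) * (z ^ t.2.2.1 - u ^ t.2.2.1) := by
        rw [uterm]
        simp only [map_mul, map_pow, Polynomial.aeval_X, eq_intCast, map_intCast]
        ring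
      rw [h3, abs_mul]
      have h4 : |(((t.1 : ℤ) - t.2.1 : ℤ) : ℝ)| ≤ ((t.1 + t.2.1 : ℕ) : ℝ) := by
        have := abs_sub_le t.1 t.2.1
        exact_mod_cast this
      have h5 := pow_lip M hM' z u hz hu t.2.2.1
      have h6 : (t.2.2.1 : ℝ) * (M : ℝ) ^ t.2.2.1 * |z - u| ≤ (e : ℝ) * (M : ℝ) ^ e * |z - u| := by
        refine mul_le_mul_of_nonneg_right ?_ (abs_nonneg _)
        exact mul_le_mul (by exact_mod_cast ht) (pow_le_pow_right₀ hM' ht) (by positivity)
          (by positivity)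
      calc |(((t.1 : ℤ) - t.2.1 : ℤ) : ℝ)| * |z ^ t.2.2.1 - u ^ t.2.2.1|
          ≤ ((t.1 + t.2.1 : ℕ) : ℝ) * ((e : ℝ) * (M : ℝ) ^ e * |z - u|) :=
            mul_le_mul h4 (h5.trans h6) (abs_nonneg _) (by positivity)
        _ = (((t.1 + t.2.1) * e * M ^ e : ℕ) : ℝ) * |z - u| := by
            push_cast
            ring
    have h7 : Polynomial.aeval z (uterm t) + Polynomial.aeval z (uni c) -
        (Polynomial.aeval u (uterm t) + Polynomial.aeval u (uni c)) =
        (Polynomial.aeval z (uterm t) - Polynomial.aeval u (uterm t)) +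
          (Polynomial.aeval z (uni c) - Polynomial.aeval u (uni c)) := by ring
    rw [h7]
    refine (abs_add_le _ _).trans ((add_le_add h2 h1).trans (le_of_eq ?_))
    push_cast
    ring

/-- all real zeros are bounded by `smC + 1` -/
theorem zero_le (c : Code) (hc : uni c ≠ 0) (z : ℝ) (hz : Polynomial.aeval z (uni c) = 0) :
    |z| ≤ ((smC c + 1 : ℕ) : ℝ) := by
  set f : Polynomial ℝ := (uni c).map (Int.castRingHom ℝ) with hf
  have hf0 : f ≠ 0 := by
    rw [hf, Ne, Polynomial.map_eq_zero_iff (RingHom.injective_int _)]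
    exact hc
  have hroot : f.IsRoot z := by
    rw [Polynomial.IsRoot.def, hf, Polynomial.eval_map, ← hz, Polynomial.aeval_def]
    rfl
  have h1 := Polynomial.IsRoot.norm_lt_cauchyBound hf0 hroot
  have hlead : (1 : ℝ) ≤ ‖f.leadingCoeff‖ := by
    have h2 : f.leadingCoeff = (((uni c).leadingCoeff : ℤ) : ℝ) := by
      rw [hf, Polynomial.leadingCoeff_map_of_injective (RingHom.injective_int _)]
      rfl
    rw [h2, Real.norm_eq_abs]
    have h3 : 1 ≤ |(uni c).leadingCoeff| := Int.one_le_abs (Polynomial.leadingCoeff_ne_zero.2 hc)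
    exact_mod_cast h3
  have hco : ∀ i, ‖f.coeff i‖ ≤ (smC c : ℝ) := by
    intro i
    rw [hf, Polynomial.coeff_map, Real.norm_eq_abs]
    have := abs_coeff_uni_le c i
    simp only [eq_intCast]
    exact_mod_cast this
  have hb : f.cauchyBound ≤ (smC c : NNReal) + 1 := by
    rw [Polynomial.cauchyBound]
    refine add_le_add ?_ le_rfl
    refine (div_le_iff₀ ?_).2 ?_
    · rw [← NNReal.coe_lt_coe]
      simpa using lt_of_lt_of_le one_pos hlead
    · refine Finset.sup_le fun i _ => ?_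
      have h4 : ‖f.coeff i‖₊ ≤ (smC c : NNReal) := by
        rw [← NNReal.coe_le_coe]
        simpa using hco i
      have h5 : (1 : NNReal) ≤ ‖f.leadingCoeff‖₊ := by
        rw [← NNReal.coe_le_coe]
        simpa using hlead
      calc ‖f.coeff i‖₊ ≤ (smC c : NNReal) * 1 := by rw [mul_one]; exact h4
        _ ≤ _ := mul_le_mul_of_nonneg_left h5 (by positivity)
  have h6 : ‖z‖ < ((smC c : NNReal) + 1 : NNReal) := lt_of_lt_of_le h1 (NNReal.coe_le_coe.2 hb)
  rw [Real.norm_eq_abs] at h6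
  have h7 : (((smC c : NNReal) + 1 : NNReal) : ℝ) = ((smC c + 1 : ℕ) : ℝ) := by
    push_cast
    rfl
  rw [h7] at h6
  exact h6.le

/-- the values in the certificate -/
theorem absV_hom (p : Code) (e : ℕ) (he : mxC p ≤ e) (u v : ℕ × ℕ) (hv : iv v ≠ 0) :
    (absV (homC e p) u v : ℝ) =
      |(iv v : ℝ)| ^ e * |Polynomial.aeval ((iv u : ℝ) / (iv v : ℝ)) (uni p)| := by
  have h1 : ((absV (homC e p) u v : ℤ) : ℝ) =
      |((eval ![iv u, iv v] (toPoly (homC e p)) : ℤ) : ℝ)| := by
    rw [absV_eq]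
    push_cast
    rfl
  have h2 : ∀ F : MvPolynomial (Fin 2) ℤ, ((eval ![iv u, iv v] F : ℤ) : ℝ) =
      aeval ![(iv u : ℝ), (iv v : ℝ)] F := by
    intro F
    induction F using MvPolynomial.induction_on with
    | C a => simp
    | add p q hp hq => rw [map_add, map_add, Int.cast_add, hp, hq]
    | mul_X p i hp =>
      rw [map_mul, map_mul, Int.cast_mul, hp, aeval_X, eval_X]
      fin_cases i
      · simp
      · simp
  have h3 : ((iv v : ℤ) : ℝ) ≠ 0 := by exact_mod_cast hv
  rw [h2, toPoly_homC, aeval_hom e _ (natDegree_uni_le p e he) _ _ h3, abs_mul, abs_pow] at h1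
  rw [← h1]
  push_cast
  rfl

/-- the Lipschitz constant times `g^e` -/
def lpC (p : Code) (g : ℕ) : ℕ := smC p * mxC p * (smC p + 1) ^ mxC p * g ^ mxC p

/-- `g^(e+1)` times the absolute value at `u / g` -/
def vlC (p : Code) (g : ℕ) (u : ℕ × ℕ) : ℕ := g * absV (homC (mxC p) p) u (g, 0)

/-- the certificate -/
def noRealC (p : Code) (g : ℕ) : Prop :=
  0 < g ∧ ∀ i ∈ List.range ((smC p + 1) * g + 1),
    lpC p g < vlC p g (i, 0) ∧ lpC p g < vlC p g (0, i)

theorem noRealC_val (p : Code) (g : ℕ) (hg : 0 < g) (u : ℕ × ℕ) (z : ℝ) (hz : z = (iv u : ℝ) / g) :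
    (lpC p g < vlC p g u) ↔
      ((smC p * mxC p * (smC p + 1) ^ mxC p : ℕ) : ℝ) < g * |Polynomial.aeval z (uni p)| := by
  have h1 : iv (g, 0) = (g : ℤ) := by simp [iv]
  have h2 := absV_hom p (mxC p) le_rfl u (g, 0) (by rw [h1]; exact_mod_cast hg.ne')
  rw [h1] at h2
  have hg' : (0 : ℝ) < g := by exact_mod_cast hg
  have h3 : |((g : ℤ) : ℝ)| = g := by
    push_cast
    exact abs_of_pos hg'
  have h4 : (((g : ℤ) : ℤ) : ℝ) = (g : ℝ) := by push_cast; rfl
  rw [h3, h4, ← hz] at h2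
  rw [← Nat.cast_lt (α := ℝ), lpC, vlC]
  push_cast
  rw [h2]
  have hgp : (0 : ℝ) < (g : ℝ) ^ mxC p := by positivity
  constructor
  · intro h
    have h5 : ((smC p : ℝ) * mxC p * (smC p + 1) ^ mxC p) * (g : ℝ) ^ mxC p <
        (g * |Polynomial.aeval z (uni p)|) * (g : ℝ) ^ mxC p := by
      calc _ < _ := h
        _ = _ := by ring
    exact lt_of_mul_lt_mul_right h5 hgp.le
  · intro h
    have h5 := mul_lt_mul_of_pos_right h hgp
    calc _ < _ := h5
      _ = _ := by ring

theorem noRealC_sound (p : Code) (g : ℕ) (h : noRealC p g) (z : ℝ) :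
    Polynomial.aeval z (uni p) ≠ 0 := by
  intro hz
  obtain ⟨hg, h⟩ := h
  have hg' : (0 : ℝ) < g := by exact_mod_cast hg
  set M : ℕ := smC p + 1 with hM
  have hp : uni p ≠ 0 := by
    intro h0
    have h1 := (h 0 (by simp)).1
    have h2 := absV_hom p (mxC p) le_rfl (0, 0) (g, 0) (by simp [iv]; omega)
    rw [h0, map_zero, abs_zero, mul_zero] at h2
    have h3 : absV (homC (mxC p) p) (0, 0) (g, 0) = 0 := by exact_mod_cast h2
    rw [vlC, h3, mul_zero] at h1
    omega
  have hzM : |z| ≤ (M : ℝ) := zero_le p hp z hz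
  set i : ℕ := ⌊|z| * g⌋₊ with hi
  have hnn : 0 ≤ |z| * g := by positivity
  have hi1 : (i : ℝ) ≤ |z| * g := Nat.floor_le hnn
  have hi2 : |z| * g < i + 1 := Nat.lt_floor_add_one _
  have hiM : i ≤ M * g := by
    have : (i : ℝ) ≤ ((M * g : ℕ) : ℝ) := by
      push_cast
      exact hi1.trans (mul_le_mul_of_nonneg_right hzM hg'.le)
    exact_mod_cast this
  have himem : i ∈ List.range (M * g + 1) := List.mem_range.2 (by omega)
  have hh := h i himem
  have key : ∀ u : ℝ, |u| = i / g → |z - u| < 1 / g →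
      ((smC p * mxC p * M ^ mxC p : ℕ) : ℝ) < g * |Polynomial.aeval u (uni p)| → False := by
    intro u hu hzu hlt
    have huM : |u| ≤ (M : ℝ) := by
      rw [hu, div_le_iff₀ hg']
      exact_mod_cast hiM
    have hL := lip p (mxC p) M le_rfl (by omega) z u hzM huM
    rw [hz, zero_sub, abs_neg] at hL
    have h6 : (g : ℝ) * |Polynomial.aeval u (uni p)| ≤
        g * (((smC p * mxC p * M ^ mxC p : ℕ) : ℝ) * |z - u|) := mul_le_mul_of_nonneg_left hL hg'.le
    have h7 : (g : ℝ) * |z - u| ≤ 1 := by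
      have := mul_le_mul_of_nonneg_left hzu.le hg'.le
      rwa [mul_one_div, div_self hg'.ne'] at this
    have h8 : (0 : ℝ) ≤ ((smC p * mxC p * M ^ mxC p : ℕ) : ℝ) := Nat.cast_nonneg _
    have h9 : (g : ℝ) * (((smC p * mxC p * M ^ mxC p : ℕ) : ℝ) * |z - u|) ≤
        ((smC p * mxC p * M ^ mxC p : ℕ) : ℝ) := by
      calc (g : ℝ) * (((smC p * mxC p * M ^ mxC p : ℕ) : ℝ) * |z - u|)
          = ((smC p * mxC p * M ^ mxC p : ℕ) : ℝ) * (g * |z - u|) := by ring
        _ ≤ ((smC p * mxC p * M ^ mxC p : ℕ) : ℝ) * 1 := mul_le_mul_of_nonneg_left h7 h8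
        _ = _ := mul_one _
    linarith
  have hd : |(|z| - i / g)| < 1 / g := by
    rw [abs_lt]
    constructor
    · have : (i : ℝ) / g ≤ |z| := by rw [div_le_iff₀ hg']; exact hi1
      have h1 : (0 : ℝ) < 1 / g := by positivity
      linarith
    · have : |z| < (i + 1) / g := by rw [lt_div_iff₀ hg']; exact hi2
      rw [add_div] at this
      linarith
  rcases le_total 0 z with hz0 | hz0
  · refine key (i / g) (abs_of_nonneg (by positivity)) ?_ ?_
    · rw [abs_of_nonneg hz0] at hd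
      exact hd
    · refine (noRealC_val p g hg (i, 0) _ ?_).1 hh.1
      simp [iv]
  · refine key (-(i / g)) ?_ ?_ ?_
    · rw [abs_neg]
      exact abs_of_nonneg (by positivity)
    · rw [abs_of_nonpos hz0] at hd
      rw [← abs_neg]
      have : -(z - -((i : ℝ) / g)) = -z - i / g := by ring
      rw [this]
      exact hd
    · refine (noRealC_val p g hg (0, i) _ ?_).1 hh.2
      simp [iv, neg_div]

theorem noRealC_complete (p : Code) (h : ∀ z : ℝ, Polynomial.aeval z (uni p) ≠ 0) :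
    ∃ g, noRealC p g := by
  set M : ℕ := smC p + 1 with hM
  have hcont : Continuous fun z : ℝ => |Polynomial.aeval z (uni p)| :=
    (Polynomial.continuous_aeval (uni p)).abs
  obtain ⟨z0, hz0, hmin⟩ := (isCompact_Icc (a := -(M : ℝ)) (b := M)).exists_isMinOn
    ⟨0, by simp⟩ hcont.continuousOn
  set μ : ℝ := |Polynomial.aeval z0 (uni p)| with hμ
  have hμ0 : 0 < μ := abs_pos.2 (h z0)
  obtain ⟨g, hg⟩ := exists_nat_gt (((smC p * mxC p * M ^ mxC p : ℕ) : ℝ) / μ)
  rw [div_lt_iff₀ hμ0] at hg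
  have hg0 : 0 < g := by
    rcases Nat.eq_zero_or_pos g with h0 | h0
    · rw [h0, Nat.cast_zero, zero_mul] at hg
      exact absurd hg (not_lt.2 (Nat.cast_nonneg _))
    · exact h0
  have hg' : (0 : ℝ) < g := by exact_mod_cast hg0
  have key : ∀ u : ℝ, |u| ≤ M →
      ((smC p * mxC p * M ^ mxC p : ℕ) : ℝ) < g * |Polynomial.aeval u (uni p)| := by
    intro u hu
    have h1 : μ ≤ |Polynomial.aeval u (uni p)| := hmin (abs_le.1 hu)
    exact lt_of_lt_of_le hg (mul_le_mul_of_nonneg_left h1 hg'.le)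
  refine ⟨g, hg0, fun i hi => ?_⟩
  have hi' : i ≤ M * g := Nat.lt_succ_iff.1 (List.mem_range.1 hi)
  have hle : (i : ℝ) / g ≤ M := by
    rw [div_le_iff₀ hg']
    exact_mod_cast hi'
  constructor
  · refine (noRealC_val p g hg0 (i, 0) _ rfl).2 (key _ ?_)
    simp only [iv]
    push_cast
    rw [sub_zero, abs_of_nonneg (by positivity)]
    exact hle
  · refine (noRealC_val p g hg0 (0, i) _ rfl).2 (key _ ?_)
    simp only [iv]
    push_cast
    rw [zero_sub, neg_div, abs_neg, abs_of_nonneg (by positivity)]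
    exact hle

/-! Primitive recursiveness. -/

theorem primrec_mxC : Primrec mxC := by
  unfold mxC
  refine Primrec.list_foldr Primrec.id (Primrec.const 0)
    (h := fun (c : Code) (q : T4 × ℕ) => max q.1.2.2.1 q.2) ?_
  exact Primrec.nat_max.comp (pr3 (Primrec.fst.comp Primrec.snd)) (Primrec.snd.comp Primrec.snd)

theorem primrec_smC : Primrec smC := by
  unfold smC
  refine Primrec.list_foldr Primrec.id (Primrec.const 0)
    (h := fun (c : Code) (q : T4 × ℕ) => (q.1.1 + q.1.2.1) + q.2) ?_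
  exact Primrec.nat_add.comp (Primrec.nat_add.comp (pr1 (Primrec.fst.comp Primrec.snd))
    (pr2 (Primrec.fst.comp Primrec.snd))) (Primrec.snd.comp Primrec.snd)

theorem primrec_lpC : Primrec₂ lpC := by
  unfold lpC
  have hm : Primrec fun z : Code × ℕ => mxC z.1 := primrec_mxC.comp Primrec.fst
  have hs : Primrec fun z : Code × ℕ => smC z.1 := primrec_smC.comp Primrec.fst
  exact Primrec.nat_mul.comp (Primrec.nat_mul.comp (Primrec.nat_mul.comp hs hm)
      (primrec_pow.comp (Primrec.succ.comp hs) hm)) (primrec_pow.comp Primrec.snd hm)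

attribute [local irreducible] absV homC mxC smC

theorem primrec_vlC : Primrec fun z : Code × ℕ × (ℕ × ℕ) => vlC z.1 z.2.1 z.2.2 := by
  unfold vlC
  have hm : Primrec fun z : Code × ℕ × (ℕ × ℕ) => mxC z.1 := primrec_mxC.comp Primrec.fst
  have hg : Primrec fun z : Code × ℕ × (ℕ × ℕ) => z.2.1 := Primrec.fst.comp Primrec.snd
  have hu : Primrec fun z : Code × ℕ × (ℕ × ℕ) => z.2.2 := Primrec.snd.comp Primrec.snd
  have hh : Primrec fun z : Code × ℕ × (ℕ × ℕ) => homC (mxC z.1) z.1 :=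
    primrec_homC.comp hm Primrec.fst
  have hg2 : Primrec fun z : Code × ℕ × (ℕ × ℕ) => ((z.2.1, 0) : ℕ × ℕ) :=
    Primrec.pair hg (Primrec.const 0)
  have h5 : Primrec fun z : Code × ℕ × (ℕ × ℕ) => absV (homC (mxC z.1) z.1) z.2.2 (z.2.1, 0) :=
    primrec_absV.comp (Primrec.pair hh (Primrec.pair hu hg2))
  exact Primrec.nat_mul.comp hg h5

attribute [local irreducible] lpC vlC

theorem primrec_noRealC : PrimrecPred fun q : Code × ℕ => noRealC q.1 q.2 := by
  have hp : Primrec fun z : ℕ × (Code × ℕ) => z.2.1 := Primrec.fst.comp Primrec.snd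
  have hg : Primrec fun z : ℕ × (Code × ℕ) => z.2.2 := Primrec.snd.comp Primrec.snd
  have hL : Primrec fun z : ℕ × (Code × ℕ) => lpC z.2.1 z.2.2 := primrec_lpC.comp hp hg
  have hv1 : Primrec fun z : ℕ × (Code × ℕ) => vlC z.2.1 z.2.2 (z.1, 0) :=
    primrec_vlC.comp (Primrec.pair hp (Primrec.pair hg (Primrec.pair Primrec.fst
      (Primrec.const 0))))
  have hv2 : Primrec fun z : ℕ × (Code × ℕ) => vlC z.2.1 z.2.2 (0, z.1) :=
    primrec_vlC.comp (Primrec.pair hp (Primrec.pair hg (Primrec.pair (Primrec.const 0)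
      Primrec.fst)))
  have key : PrimrecRel fun (i : ℕ) (z : Code × ℕ) =>
      lpC z.1 z.2 < vlC z.1 z.2 (i, 0) ∧ lpC z.1 z.2 < vlC z.1 z.2 (0, i) :=
    (PrimrecRel.comp Primrec.nat_lt hL hv1).and (PrimrecRel.comp Primrec.nat_lt hL hv2)
  have hr : Primrec fun z : Code × ℕ => List.range ((smC z.1 + 1) * z.2 + 1) :=
    Primrec.list_range.comp (Primrec.succ.comp (Primrec.nat_mul.comp
      (Primrec.succ.comp (primrec_smC.comp Primrec.fst)) Primrec.snd))
  have h1 : PrimrecPred fun z : Code × ℕ => 0 < z.2 :=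
    PrimrecRel.comp Primrec.nat_lt (Primrec.const 0) Primrec.snd
  have h2 : PrimrecPred fun z : Code × ℕ => ∀ i ∈ List.range ((smC z.1 + 1) * z.2 + 1),
      lpC z.1 z.2 < vlC z.1 z.2 (i, 0) ∧ lpC z.1 z.2 < vlC z.1 z.2 (0, i) :=
    PrimrecRel.comp (PrimrecRel.forall_mem_list key) hr Primrec.id
  exact (h1.and h2).of_eq fun z => Iff.rfl

end Pool.Agent.H69.AL
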