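import Mathlib
import Pool.Agent.H69.AL.NoReal
import Pool.Agent.H98.AL.Defs

/-!
# [H69 AL] The certificates as lists of numbers: a primitive recursive predicate

`Cert q G w` says that `w` is the code of a certificate `CertP` for the polynomial with code `G`.
-/

namespace Pool.Agent.H69.AL

open MvPolynomial Pool.Agent.H8.Siegel Pool.Agent.H98.AL

/-! The degree of a polynomial in one variable. -/

/-- the second exponents are set to zero -/
def uniC (c : Code) : Code := c.map fun t => (t.1, t.2.1, t.2.2.1, 0)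

theorem coeff_uterm (t : T4) (i : ℕ) :
    (uterm t).coeff i = if t.2.2.1 = i then (t.1 : ℤ) - t.2.1 else 0 := by
  rw [uterm, Polynomial.coeff_C_mul, Polynomial.coeff_X_pow]
  by_cases h : t.2.2.1 = i
  · rw [if_pos h.symm, if_pos h, mul_one]
  · rw [if_neg (Ne.symm h), if_neg h, mul_zero]

theorem coeff_uniC (c : Code) (m : Fin 2 →₀ ℕ) :
    coeff m (toPoly (uniC c)) = if m 1 = 0 then (uni c).coeff (m 0) else 0 := by
  induction c with
  | nil => simp [uniC]
  | cons t c ih =>
    have h : uniC (t :: c) = (t.1, t.2.1, t.2.2.1, 0) :: uniC c := rfl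
    rw [h, toPoly_cons, coeff_add, ih, coeff_term, uni_cons, Polynomial.coeff_add, coeff_uterm]
    simp only
    by_cases h0 : m 1 = 0
    · rw [if_pos h0, if_pos h0]
      congr 1
      by_cases h1 : t.2.2.1 = m 0
      · rw [if_pos ⟨h1, h0.symm⟩, if_pos h1]
      · rw [if_neg (fun h2 => h1 h2.1), if_neg h1]
    · rw [if_neg h0, if_neg h0, if_neg (fun h2 => h0 h2.2.symm), add_zero]

/-- the degree of the polynomial in one variable -/
def udC (c : Code) : ℕ := dxC (uniC c)

theorem udC_eq (c : Code) : udC c = (uni c).natDegree := by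
  refine eq_of_forall_ge_iff fun d => ?_
  rw [udC, dxC, wdC_le, Polynomial.natDegree_le_iff_coeff_eq_zero]
  constructor
  · intro h i hi
    by_contra h0
    have h1 := h (ex i 0) (by rw [coeff_uniC]; simpa using h0)
    simp only [ex_zero, ex_one] at h1
    omega
  · intro h m hm
    rw [coeff_uniC] at hm
    by_cases h0 : m 1 = 0
    · rw [if_pos h0] at hm
      by_contra hlt
      exact hm (h (m 0) (by omega))
    · rw [if_neg h0] at hm
      exact absurd rfl hm

/-! The identity. -/

theorem hm_eq_hom {S : Type*} [CommRing S] (P : Polynomial ℤ) (e : ℕ) (hP : P.natDegree ≤ e)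
    (A B : S) : hm P e A B = aeval ![A, B] (hom e P) := by
  rw [hm, hom, Polynomial.sum_over_range' P (fun n => by simp) (e + 1) (Nat.lt_succ_of_le hP),
    map_sum]
  refine Finset.sum_congr rfl fun l _ => ?_
  rw [map_mul, map_mul, map_pow, map_pow, aeval_X, aeval_X]
  simp only [Matrix.cons_val_zero, Matrix.cons_val_one, eq_intCast, map_intCast]

/-- the left side of the identity of the certificate -/
def idL (P : Code) (e s m : ℕ) (N : Code) : Code :=
  compC (homC e P) N (mulC (constC (m, 0)) (powC [(1, 0, 1, 0)] s))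

theorem toPoly_idL (P : Code) (e s m : ℕ) (N : Code) (hP : (uni P).natDegree ≤ e) :
    toPoly (idL P e s m N) = hm (uni P) e (toPoly N) (C (m : ℤ) * X 0 ^ s : P2) := by
  have h : toPoly [(1, 0, 1, 0)] = X 0 := by simp [term]
  have h1 : toPoly (constC (m, 0)) = C (m : ℤ) := by
    rw [toPoly_constC]
    simp
  rw [idL, toPoly_compC, toPoly_homC, toPoly_mulC, toPoly_powC, h, h1, hm_eq_hom _ _ hP,
    aeval_def, aeval_def]
  congr 1

/-- the right side of the identity of the certificate -/
def idR (G' Q R : Code) : Code := mulC G' Q ++ R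

theorem toPoly_idR (G' Q R : Code) : toPoly (idR G' Q R) = toPoly G' * toPoly Q + toPoly R := by
  rw [idR, toPoly_append, toPoly_mulC]

theorem toPoly_shC' (G : Code) (c : ℕ) : toPoly (shC G c) = shf c (toPoly G) := by
  rw [toPoly_shC, shf, vl, aeval_def]
  rfl

/-! The certificate. -/

/-- a witness: `(p, (c, s, e, m), (N, Q, R), g)` -/
abbrev Wit : Type := Code × (ℕ × ℕ × ℕ × ℕ) × (Code × Code × Code) × ℕ

/-- the certificate on codes -/
def CertC (q G p : Code) (c s e m : ℕ) (N Q R : Code) (g : ℕ) : Prop :=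
  ((noRealC p g ∧ udC (mulC q p) ≤ e) ∧ (1 ≤ m ∧ nz (shC G c) 0 (tdC (shC G c)))) ∧
    (eqC (idL (mulC q p) e s m N) (idR (shC G c) Q R) ∧ tdC R < s * e)

/-- the certificate on codes, `w` the witness -/
def Cert (q G : Code) (w : Wit) : Prop :=
  CertC q G w.1 w.2.1.1 w.2.1.2.1 w.2.1.2.2.1 w.2.1.2.2.2 w.2.2.1.1 w.2.2.1.2.1 w.2.2.1.2.2
    w.2.2.2

theorem certC_iff (q G p : Code) (c s e m : ℕ) (N Q R : Code) (g : ℕ) :
    CertC q G p c s e m N Q R g ↔ noRealC p g ∧
      CertP (uni q) (uni p) c s e m (toPoly N) (toPoly Q) (toPoly R) (toPoly G) := by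
  have hex : ∀ d, ex 0 d = Finsupp.single 1 d := fun d => by simp [ex]
  unfold CertC
  constructor
  · rintro ⟨⟨⟨h1, h2⟩, h3, h4⟩, h5, h6⟩
    rw [udC_eq] at h2
    rw [eqC_iff, toPoly_idL _ _ _ _ _ h2, toPoly_idR, uni_mulC, toPoly_shC'] at h5
    rw [uni_mulC] at h2
    rw [nz_iff, tdC_eq, toPoly_shC', hex] at h4
    rw [tdC_eq] at h6
    exact ⟨h1, noRealC_sound p g h1, h2, h3, h4, h5, h6⟩
  · rintro ⟨h1, h⟩
    have h2 : (uni (mulC q p)).natDegree ≤ e := by
      rw [uni_mulC]
      exact h.de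
    refine ⟨⟨⟨h1, ?_⟩, h.m1, ?_⟩, ?_, ?_⟩
    · rw [udC_eq]
      exact h2
    · rw [nz_iff, tdC_eq, toPoly_shC', hex]
      exact h.lc
    · rw [eqC_iff, toPoly_idL _ _ _ _ _ h2, toPoly_idR, uni_mulC, toPoly_shC']
      exact h.eq
    · rw [tdC_eq]
      exact h.tr

theorem cert_sound {q G : Code} {w : Wit} (h : Cert q G w) :
    ∃ (p : Polynomial ℤ) (c s e m : ℕ) (N Q R : P2),
      CertP (uni q) p c s e m N Q R (toPoly G) :=
  ⟨_, _, _, _, _, _, _, _, ((certC_iff _ _ _ _ _ _ _ _ _ _ _).1 h).2⟩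

theorem cert_complete {q G : Code} {p : Polynomial ℤ} {c s e m : ℕ} {N Q R : P2}
    (h : CertP (uni q) p c s e m N Q R (toPoly G)) : ∃ w : Wit, Cert q G w := by
  obtain ⟨p', rfl⟩ := exists_uni p
  obtain ⟨N', rfl⟩ := exists_code N
  obtain ⟨Q', rfl⟩ := exists_code Q
  obtain ⟨R', rfl⟩ := exists_code R
  obtain ⟨g, hg⟩ := noRealC_complete p' h.nr
  exact ⟨(p', (c, s, e, m), (N', Q', R'), g), (certC_iff _ _ _ _ _ _ _ _ _ _ _).2 ⟨hg, h⟩⟩

/-! Primitive recursiveness. -/

theorem primrec_uniC : Primrec uniC := by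
  unfold uniC
  refine Primrec.list_map Primrec.id ?_
  exact mk4 (pr1 Primrec.snd) (pr2 Primrec.snd) (pr3 Primrec.snd) (Primrec.const 0)

theorem primrec_udC : Primrec udC := primrec_dxC.comp primrec_uniC

theorem primrec_idR {α : Type*} [Primcodable α] {f g h : α → Code} (hf : Primrec f)
    (hg : Primrec g) (hh : Primrec h) : Primrec fun a => idR (f a) (g a) (h a) := by
  unfold idR
  exact Primrec.list_append.comp (primrec_mulC.comp hf hg) hh

theorem primrec_idL {α : Type*} [Primcodable α] {P N : α → Code} {e s m : α → ℕ}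
    (hP : Primrec P) (he : Primrec e) (hs : Primrec s) (hm : Primrec m) (hN : Primrec N) :
    Primrec fun a => idL (P a) (e a) (s a) (m a) (N a) := by
  unfold idL
  have h1 : Primrec fun a => homC (e a) (P a) := primrec_homC.comp he hP
  have h2 : Primrec fun a => constC (m a, 0) :=
    primrec_constC.comp (Primrec.pair hm (Primrec.const 0))
  have h3 : Primrec fun a => powC [(1, 0, 1, 0)] (s a) :=
    primrec_powC.comp (Primrec.const _) hs
  have h4 : Primrec fun a => mulC (constC (m a, 0)) (powC [(1, 0, 1, 0)] (s a)) :=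
    primrec_mulC.comp h2 h3
  exact primrec_compC.comp (Primrec.pair h1 (Primrec.pair hN h4))

theorem primrec_CertC {α : Type*} [Primcodable α] {q G p N Q R : α → Code} {c s e m g : α → ℕ}
    (hq : Primrec q) (hG : Primrec G) (hp : Primrec p) (hc : Primrec c) (hs : Primrec s)
    (he : Primrec e) (hm : Primrec m) (hN : Primrec N) (hQ : Primrec Q) (hR : Primrec R)
    (hg : Primrec g) :
    PrimrecPred fun a => CertC (q a) (G a) (p a) (c a) (s a) (e a) (m a) (N a) (Q a) (R a)
      (g a) := by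
  have hqp : Primrec fun a => mulC (q a) (p a) := primrec_mulC.comp hq hp
  have hsh : Primrec fun a => shC (G a) (c a) := primrec_shC.comp hG hc
  have h1 : PrimrecPred fun a => noRealC (p a) (g a) :=
    PrimrecPred.comp (p := fun z : Code × ℕ => noRealC z.1 z.2) primrec_noRealC
      (Primrec.pair hp hg)
  have h2 : PrimrecPred fun a => udC (mulC (q a) (p a)) ≤ e a :=
    PrimrecRel.comp Primrec.nat_le (primrec_udC.comp hqp) he
  have h3 : PrimrecPred fun a => 1 ≤ m a := PrimrecRel.comp Primrec.nat_le (Primrec.const 1) hm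
  have h4 : PrimrecPred fun a => nz (shC (G a) (c a)) 0 (tdC (shC (G a) (c a))) :=
    PrimrecPred.comp (p := fun z : Code × ℕ × ℕ => nz z.1 z.2.1 z.2.2) primrec_nz
      (Primrec.pair hsh (Primrec.pair (Primrec.const 0) (primrec_tdC.comp hsh)))
  have h5 : PrimrecPred fun a => eqC (idL (mulC (q a) (p a)) (e a) (s a) (m a) (N a))
      (idR (shC (G a) (c a)) (Q a) (R a)) :=
    PrimrecRel.comp primrec_eqC (primrec_idL hqp he hs hm hN) (primrec_idR hsh hQ hR)
  have h6 : PrimrecPred fun a => tdC (R a) < s a * e a :=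
    PrimrecRel.comp Primrec.nat_lt (primrec_tdC.comp hR) (Primrec.nat_mul.comp hs he)
  exact ((h1.and h2).and (h3.and h4)).and (h5.and h6)

theorem primrec_Cert {α : Type*} [Primcodable α] {q G : α → Code} {w : α → Wit}
    (hq : Primrec q) (hG : Primrec G) (hw : Primrec w) :
    PrimrecPred fun a => Cert (q a) (G a) (w a) := by
  unfold Cert
  have h1 : Primrec fun a => (w a).2.1 := Primrec.fst.comp (Primrec.snd.comp hw)
  have h2 : Primrec fun a => (w a).2.2.1 :=
    Primrec.fst.comp (Primrec.snd.comp (Primrec.snd.comp hw))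
  exact primrec_CertC hq hG (Primrec.fst.comp hw) (Primrec.fst.comp h1)
    (Primrec.fst.comp (Primrec.snd.comp h1))
    (Primrec.fst.comp (Primrec.snd.comp (Primrec.snd.comp h1)))
    (Primrec.snd.comp (Primrec.snd.comp (Primrec.snd.comp h1)))
    (Primrec.fst.comp h2) (Primrec.fst.comp (Primrec.snd.comp h2))
    (Primrec.snd.comp (Primrec.snd.comp h2))
    (Primrec.snd.comp (Primrec.snd.comp (Primrec.snd.comp hw)))

end Pool.Agent.H69.AL
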