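import Mathlib
import Pool.Agent.H69.AL.Cert

/-!
# [H69 AL] Triples (curve, certificate, integer point): the primitive recursive level predicate
-/

namespace Pool.Agent.H69.AL

open MvPolynomial Pool.Agent.H8.Siegel Pool.Agent.H98.AL

/-- a curve, a witness, an integer point -/
abbrev Trip : Type := Code × Wit × (ℕ × ℕ) × (ℕ × ℕ)

/-- the size of the point -/
def szT (t : Trip) : ℕ := max (ivAbs t.2.2.1) (ivAbs t.2.2.2)

theorem szT_eq (t : Trip) : (szT t : ℤ) = max |iv t.2.2.1| |iv t.2.2.2| := by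
  rw [szT, Nat.cast_max, ivAbs_eq, ivAbs_eq]

/-- the curve `G` has degree at most `N`, the certificate `w` is correct, the point `(u, v)` is on the curve and its
size is larger than `H ^ c`, where `H ≥ 2` is the height of the curve -/
def LevC (q : Code) (N c : ℕ) (G : Code) (w : Wit) (u v : ℕ × ℕ) : Prop :=
  (tdC G ≤ N ∧ Cert q G w) ∧ (zeroC G u v ∧ (max 2 (htC G)) ^ c < max (ivAbs u) (ivAbs v))

/-- the triple `t` is exceptional at level `N` -/
def LevP (C : ℕ → ℕ) (q : Code) (N : ℕ) (t : Trip) : Prop :=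
  LevC q N (C N) t.1 t.2.1 t.2.2.1 t.2.2.2

/-- the level predicate -/
noncomputable def lev (C : ℕ → ℕ) (q : Code) (N : ℕ) (t : Trip) : Bool :=
  @decide (LevP C q N t) (Classical.propDecidable _)

theorem lev_iff (C : ℕ → ℕ) (q : Code) (N : ℕ) (t : Trip) : lev C q N t = true ↔ LevP C q N t :=
  @decide_eq_true_iff _ (Classical.propDecidable _)

theorem primrec_szT : Primrec szT := by
  unfold szT
  exact Primrec.nat_max.comp
    (primrec_ivAbs.comp (Primrec.fst.comp (Primrec.snd.comp Primrec.snd)))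
    (primrec_ivAbs.comp (Primrec.snd.comp (Primrec.snd.comp Primrec.snd)))

attribute [local irreducible] tdC htC zeroC ivAbs Cert

theorem primrec_LevC {α : Type*} [Primcodable α] {q G : α → Code} {w : α → Wit}
    {u v : α → ℕ × ℕ} {N c : α → ℕ} (hq : Primrec q) (hN : Primrec N) (hc : Primrec c)
    (hG : Primrec G) (hw : Primrec w) (hu : Primrec u) (hv : Primrec v) :
    PrimrecPred fun a => LevC (q a) (N a) (c a) (G a) (w a) (u a) (v a) := by
  have h1 : PrimrecPred fun a => tdC (G a) ≤ N a :=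
    PrimrecRel.comp Primrec.nat_le (primrec_tdC.comp hG) hN
  have h2 : PrimrecPred fun a => Cert (q a) (G a) (w a) := primrec_Cert hq hG hw
  have h3 : PrimrecPred fun a => zeroC (G a) (u a) (v a) :=
    PrimrecPred.comp (p := fun z : Code × (ℕ × ℕ) × (ℕ × ℕ) => zeroC z.1 z.2.1 z.2.2)
      primrec_zeroC (Primrec.pair hG (Primrec.pair hu hv))
  have h5 : Primrec fun a => (max 2 (htC (G a))) ^ c a :=
    primrec_pow.comp (Primrec.nat_max.comp (Primrec.const 2) (primrec_htC.comp hG)) hc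
  have h6 : Primrec fun a => max (ivAbs (u a)) (ivAbs (v a)) :=
    Primrec.nat_max.comp (primrec_ivAbs.comp hu) (primrec_ivAbs.comp hv)
  have h4 : PrimrecPred fun a => (max 2 (htC (G a))) ^ c a < max (ivAbs (u a)) (ivAbs (v a)) :=
    PrimrecRel.comp Primrec.nat_lt h5 h6
  exact (h1.and h2).and (h3.and h4)

attribute [local irreducible] LevC

theorem primrec_LevP (C : ℕ → ℕ) (hC : Primrec C) :
    PrimrecPred fun p : Code × ℕ × Trip => LevP C p.1 p.2.1 p.2.2 := by
  unfold LevP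
  have hN : Primrec fun p : Code × ℕ × Trip => p.2.1 := Primrec.fst.comp Primrec.snd
  have ht : Primrec fun p : Code × ℕ × Trip => p.2.2 := Primrec.snd.comp Primrec.snd
  have hG : Primrec fun p : Code × ℕ × Trip => p.2.2.1 := Primrec.fst.comp ht
  have hw : Primrec fun p : Code × ℕ × Trip => p.2.2.2.1 := Primrec.fst.comp (Primrec.snd.comp ht)
  have hu : Primrec fun p : Code × ℕ × Trip => p.2.2.2.2.1 :=
    Primrec.fst.comp (Primrec.snd.comp (Primrec.snd.comp ht))
  have hv : Primrec fun p : Code × ℕ × Trip => p.2.2.2.2.2 :=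
    Primrec.snd.comp (Primrec.snd.comp (Primrec.snd.comp ht))
  exact primrec_LevC Primrec.fst hN (hC.comp hN) hG hw hu hv

theorem primrec_lev (C : ℕ → ℕ) (hC : Primrec C) :
    Primrec fun p : Code × ℕ × Trip => lev C p.1 p.2.1 p.2.2 := by
  classical
  have h := PrimrecPred.decide (primrec_LevP C hC)
  refine h.of_eq fun p => ?_
  unfold lev
  congr

/-- what an exceptional triple means -/
theorem levP_sound {C : ℕ → ℕ} {q : Code} {N : ℕ} {t : Trip} (h : LevP C q N t)
    (sound : ∀ {p : Polynomial ℤ} {c s e m : ℕ} {N Q R G : P2},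
      CertP (uni q) p c s e m N Q R G → Star (uni q) G) :
    ∃ (G : P2) (H : ℕ) (x y : ℤ), G.totalDegree ≤ N ∧ Star (uni q) G ∧ 2 ≤ H ∧
      (∀ e, |coeff e G| ≤ (H : ℤ)) ∧ eval ![x, y] G = 0 ∧ (szT t : ℤ) = max |x| |y| ∧
        H ^ C N < szT t := by
  unfold LevP LevC at h
  obtain ⟨⟨h1, h2⟩, h3, h4⟩ := h
  obtain ⟨p, c, s, e, m, N', Q, R, hc⟩ := cert_sound h2
  refine ⟨toPoly t.1, max 2 (htC t.1), iv t.2.2.1, iv t.2.2.2, ?_, sound hc, le_max_left _ _, ?_,
    (zeroC_iff _ _ _).1 h3, szT_eq t, h4⟩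
  · rw [← tdC_eq]
    exact h1
  · exact (htC_le _ _).1 (le_max_right _ _)

/-- every exceptional curve with a certificate gives a triple -/
theorem levP_complete {C : ℕ → ℕ} {q : Code} {N : ℕ} {G : P2} {x y : ℤ}
    (hc : ∃ (p : Polynomial ℤ) (c s e m : ℕ) (N Q R : P2), CertP (uni q) p c s e m N Q R G)
    (hd : G.totalDegree ≤ N) (h0 : eval ![x, y] G = 0) {H : ℕ} (hH : 2 ≤ H)
    (hco : ∀ e, |coeff e G| ≤ (H : ℤ)) (hbig : (H : ℤ) ^ C N < max |x| |y|) :
    ∃ t : Trip, LevP C q N t ∧ (szT t : ℤ) = max |x| |y| := by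
  obtain ⟨p, c, s, e, m, N', Q, R, hc⟩ := hc
  obtain ⟨G', rfl⟩ := exists_code G
  obtain ⟨w, hw⟩ := cert_complete hc
  obtain ⟨u, rfl⟩ := exists_iv x
  obtain ⟨v, rfl⟩ := exists_iv y
  have hs : (szT (G', w, u, v) : ℤ) = max |iv u| |iv v| := szT_eq _
  refine ⟨(G', w, u, v), ?_, hs⟩
  unfold LevP LevC
  refine ⟨⟨?_, hw⟩, (zeroC_iff _ _ _).2 h0, ?_⟩
  · rw [tdC_eq]
    exact hd
  · have h1 : max 2 (htC G') ≤ H := max_le hH ((htC_le _ _).2 hco)
    have h2 : (H : ℤ) ^ C N < (szT (G', w, u, v) : ℤ) := by rw [hs]; exact hbig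
    exact lt_of_le_of_lt (Nat.pow_le_pow_left h1 _) (by exact_mod_cast h2)

/-! Primitive recursive exponents. -/

theorem primrec_factorial : Primrec Nat.factorial := by
  refine (Primrec.nat_rec₁ (f := fun n ih => (n + 1) * ih) 1 ?_).of_eq fun n => ?_
  · exact Primrec.nat_mul.comp (Primrec.succ.comp Primrec.fst) Primrec.snd
  · induction n with
    | zero => rfl
    | succ n ih => rw [Nat.factorial_succ, ← ih]

theorem primrec_CA : Primrec fun N : ℕ => (2 * (N + 1) ^ 2 + 1) * 2 ^ (2 * N ^ 2).factorial := by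
  have h1 : Primrec fun N : ℕ => 2 * (N + 1) ^ 2 + 1 :=
    Primrec.succ.comp (Primrec.nat_mul.comp (Primrec.const 2)
      (primrec_pow.comp Primrec.succ (Primrec.const 2)))
  have h2 : Primrec fun N : ℕ => 2 ^ (2 * N ^ 2).factorial :=
    primrec_pow.comp (Primrec.const 2) (primrec_factorial.comp
      (Primrec.nat_mul.comp (Primrec.const 2) (primrec_pow.comp Primrec.id (Primrec.const 2))))
  exact Primrec.nat_mul.comp h1 h2

theorem primrec_WA : Primrec fun N : ℕ => 14000 * N ^ 8 :=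
  Primrec.nat_mul.comp (Primrec.const 14000) (primrec_pow.comp Primrec.id (Primrec.const 8))

end Pool.Agent.H69.AL
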