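import Pool.Agent.H89.CY.GapP

/-!
[H69 AL COU] The `t`-th cyclic number after `c n` is near if no dyadic window after `c n` is half bad. `q0 = c n / D + 1`, so that
`1 + D * (X / D + 1) + D * ((c n / D - X / D + τ) + j) = 1 + D * (q0 + τ + j)` (`X / D ≤ c n / D`), and `c n < 1 + D * q0 ≤ c n + D + 1`.
Take the least `i` with `2 k t ≤ 2 ^ i` (`i ≤ I`, `2 ^ i < 4 k t`: `Nat.clog`, or `Nat.find`). More than half of the `τ < 2 ^ i` have some `j < k` with
`1 + D * (q0 + τ + j)` cyclic; the map `τ ↦ q = τ + j` (choose `j`) has fibres of at most `k` elements and values `q < 2 ^ i + k`, so at least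
`2 ^ i / (2 k) ≥ t` numbers `1 + D * (q0 + q)`, `q < 2 ^ i + k`, are cyclic; they are `> c n` and `≤ 1 + D * (q0 + 2 ^ i + k) ≤ c n + 1 + D * (2 + 4 k t + k)
≤ c n + 8 k D t`. So at least `t` cyclic numbers in `(c n, B]`, `B = c n + 8 k D t`, i.e. `c (n + t) ≤ B` (`Nat.nth`: otherwise the cyclic numbers in
`(c n, B]` are among `c (n + 1), ..., c (n + t - 1)`).
-/

set_option autoImplicit false

namespace Pool.Agent.H69.AL

open Finset Classical Pool.Agent.H89.CY

private theorem cou_nth (n t B : ℕ) (hn : 1 ≤ n) (ht : 1 ≤ t) (S : Finset ℕ) (hS : t ≤ S.card)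
    (h : ∀ x ∈ S, c n < x ∧ x ≤ B ∧ Cyc x) : c (n + t) ≤ B := by
  by_contra hcon
  push Not at hcon
  have hmono := Nat.nth_strictMono cyc_inf
  have hsub : S ⊆ (Ioo (n - 1) (n + t - 1)).image (Nat.nth Cyc) := by
    intro x hx
    obtain ⟨h1, h2, h3⟩ := h x hx
    have h4 : Nat.nth Cyc (Nat.count Cyc x) = x := Nat.nth_count h3
    rw [mem_image]
    refine ⟨Nat.count Cyc x, ?_, h4⟩
    rw [mem_Ioo]
    constructor
    · rw [← hmono.lt_iff_lt, h4]
      exact h1
    · rw [← hmono.lt_iff_lt, h4]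
      exact lt_of_le_of_lt h2 hcon
  have h5 := (card_le_card hsub).trans card_image_le
  rw [Nat.card_Ioo] at h5
  omega

theorem cou (D k X n I : ℕ) (hD : 2 ≤ D) (hk : 1 ≤ k) (hn : 1 ≤ n) (hX : X < c n)
    (hg : ∀ i ≤ I, ¬ (2 ^ i ≤ 2 * ((range (2 ^ i)).filter (fun τ => ∀ j < k,
      ¬ Cyc (1 + D * (X / D + 1) + D * ((c n / D - X / D + τ) + j)))).card))
    (t : ℕ) (ht : 1 ≤ t) (htI : 2 * k * t ≤ 2 ^ I) : c (n + t) ≤ c n + 8 * k * D * t := by
  have hD0 : 0 < D := by omega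
  have hkt : 1 ≤ k * t := Nat.mul_pos hk ht
  -- the scale
  obtain ⟨i, hiI, h1, h2⟩ : ∃ i, i ≤ I ∧ 2 * k * t ≤ 2 ^ i ∧ 2 ^ i < 4 * (k * t) := by
    have hex : ∃ i, 2 * k * t ≤ 2 ^ i := ⟨I, htI⟩
    refine ⟨Nat.find hex, Nat.find_min' hex htI, Nat.find_spec hex, ?_⟩
    rcases Nat.eq_zero_or_pos (Nat.find hex) with h0 | h0
    · rw [h0, pow_zero]
      omega
    · have h3 : ¬ 2 * k * t ≤ 2 ^ (Nat.find hex - 1) := Nat.find_min hex (by omega)
      have h4 : 2 ^ Nat.find hex = 2 * 2 ^ (Nat.find hex - 1) := by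
        rw [← pow_succ']
        congr 1
        omega
      have h5 : 2 * k * t = 2 * (k * t) := by ring
      rw [h4]
      omega
  have hXn : X / D ≤ c n / D := Nat.div_le_div_right hX.le
  obtain ⟨q0, hq0⟩ : ∃ q0, q0 = c n / D + 1 := ⟨_, rfl⟩
  have hval : ∀ τ j, 1 + D * (X / D + 1) + D * ((c n / D - X / D + τ) + j) =
      1 + D * (q0 + (τ + j)) := fun τ j => by
    obtain ⟨u, hu⟩ : ∃ u, c n / D = X / D + u := ⟨c n / D - X / D, by omega⟩
    rw [hq0, hu, Nat.add_sub_cancel_left]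
    ring
  have hb := hg i hiI
  simp only [hval] at hb
  obtain ⟨bad, hbad⟩ : ∃ bad, bad = (range (2 ^ i)).filter (fun τ => ∀ j < k,
      ¬ Cyc (1 + D * (q0 + (τ + j)))) := ⟨_, rfl⟩
  obtain ⟨good, hgood⟩ : ∃ good, good = (range (2 ^ i)).filter (fun τ => ¬ ∀ j < k,
      ¬ Cyc (1 + D * (q0 + (τ + j)))) := ⟨_, rfl⟩
  have hcard : bad.card + good.card = 2 ^ i := by
    rw [hbad, hgood, card_filter_add_card_filter_not, card_range]
  rw [← hbad] at hb
  have hgk : k * t < good.card := by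
    have h5 : 2 * k * t = 2 * (k * t) := by ring
    omega
  -- the map
  have hj : ∀ τ, ∃ j, τ ∈ good → j < k ∧ Cyc (1 + D * (q0 + (τ + j))) := by
    intro τ
    by_cases hτ : τ ∈ good
    · have h6 := hτ
      rw [hgood, mem_filter] at h6
      push Not at h6
      obtain ⟨j, hj1, hj2⟩ := h6.2
      exact ⟨j, fun _ => ⟨hj1, hj2⟩⟩
    · exact ⟨0, fun h => absurd h hτ⟩
  choose j hj using hj
  obtain ⟨Q, hQ⟩ : ∃ Q, Q = (range (2 ^ i + k)).filter (fun q => Cyc (1 + D * (q0 + q))) :=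
    ⟨_, rfl⟩
  have hmaps : ∀ τ ∈ good, τ + j τ ∈ Q := by
    intro τ hτ
    obtain ⟨h7, h8⟩ := hj τ hτ
    rw [hQ, mem_filter, mem_range]
    rw [hgood, mem_filter, mem_range] at hτ
    exact ⟨by omega, h8⟩
  have hfib : ∀ q ∈ Q, (good.filter (fun τ => τ + j τ = q)).card ≤ k := by
    intro q _
    have h9 : good.filter (fun τ => τ + j τ = q) ⊆ (range k).image (fun a => q - a) := by
      intro τ hτ
      rw [mem_filter] at hτ
      rw [mem_image]
      refine ⟨j τ, mem_range.2 (hj τ hτ.1).1, ?_⟩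
      omega
    refine (card_le_card h9).trans (card_image_le.trans ?_)
    rw [card_range]
  have hle : good.card ≤ k * Q.card := card_le_mul_card_image_of_maps_to hmaps k hfib
  have htQ : t ≤ Q.card := by
    have h10 : k * t < k * Q.card := lt_of_lt_of_le hgk hle
    exact (Nat.lt_of_mul_lt_mul_left h10).le
  -- the cyclic numbers
  have hinj : Function.Injective fun q => 1 + D * (q0 + q) := by
    intro a b hab
    have h11 : D * (q0 + a) = D * (q0 + b) := by
      have : 1 + D * (q0 + a) = 1 + D * (q0 + b) := hab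
      omega
    have h12 := Nat.eq_of_mul_eq_mul_left hD0 h11
    omega
  refine cou_nth n t _ hn ht (Q.image fun q => 1 + D * (q0 + q)) ?_ ?_
  · rw [card_image_of_injective _ hinj]
    exact htQ
  · intro x hx
    rw [mem_image] at hx
    obtain ⟨q, hq, rfl⟩ := hx
    rw [hQ, mem_filter, mem_range] at hq
    have h13 : c n < D * q0 := by
      rw [hq0]
      exact Nat.lt_mul_div_succ (c n) hD0
    have h14 : D * (c n / D) ≤ c n := Nat.mul_div_le (c n) D
    refine ⟨?_, ?_, hq.2⟩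
    · have : D * (q0 + q) = D * q0 + D * q := by ring
      omega
    · have h15 : q0 + q ≤ c n / D + (4 * (k * t) + k - 1) := by omega
      have h16 : k ≤ k * t := Nat.le_mul_of_pos_right k ht
      have h17 : q0 + q + 1 ≤ c n / D + 8 * (k * t) := by omega
      have h18 : D * (q0 + q + 1) ≤ D * (c n / D + 8 * (k * t)) := Nat.mul_le_mul_left D h17
      have h19 : D * (q0 + q + 1) = D * (q0 + q) + D := by ring
      have h20 : D * (c n / D + 8 * (k * t)) = D * (c n / D) + 8 * k * D * t := by ring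
      omega

end Pool.Agent.H69.AL
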