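import Pool.Agent.H8.SG.Fin

/-!
[H69 AL DEF] `n` is not a leader: some later term of the sequence is at least as large.
-/

set_option autoImplicit false

namespace Pool.Agent.H69.AL

open Pool.Agent.H89.CY

/-- `c_(m+1)^(1/m) < c_n^(1/(n-1))` fails for some `m ≥ n` -/
def PM (n : ℕ) : Prop :=
  ¬ ∀ m : ℕ, n ≤ m → (c (m + 1) : ℝ) ^ (1 / (m : ℝ)) < (c n : ℝ) ^ (1 / ((n : ℝ) - 1))

end Pool.Agent.H69.AL
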