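import Pool.Agent.H69.AL.Def

/-!
[H69 AL EXT] From one short interval to all `x ^ (2/5 + δ) ≤ y ≤ x`: adaptation of `shortL`, `shortM` and `ext_allS` of H8/SG/Fin (with `PM` instead
of `Long ε`, `4 H ≤ X` instead of `2 H ≤ X`: halve twice; `K = 6`). `c' = 1 / (7 C)` or so; `(log x) ^ c' ≤ u / 6` for large `x`.
-/

set_option autoImplicit false

namespace Pool.Agent.H69.AL

open Finset Classical Filter Pool.Agent.H89.CY Pool.Agent.H8.SG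

/-- one short interval -/
theorem shortPM (C : ℕ) (hC : 2 ≤ C)
    (h : ∀ d : ℝ, 0 < d → d ≤ 1 / 10 → ∃ u0 : ℕ, 1 ≤ u0 ∧ ∀ u : ℕ, u0 ≤ u → ∀ X H : ℕ,
      Real.exp ((u : ℝ) ^ (6 * C)) ≤ X → (X : ℝ) ≤ Real.exp (((u : ℝ) + 1) ^ (6 * C)) →
      (X : ℝ) ^ (2 / 5 + d) ≤ H → 4 * H ≤ X → (NS PM X H : ℝ) ≤ H * Real.exp (-((u : ℝ) / 6))) :
    ∃ c' : ℝ, 0 < c' ∧ ∀ d : ℝ, 0 < d → d ≤ 1 / 10 → ∃ x1 : ℕ, 2 ≤ x1 ∧
    ∀ X H : ℕ, x1 ≤ X → (X : ℝ) ^ (2 / 5 + d) ≤ H → 4 * H ≤ X →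
    (NS PM X H : ℝ) ≤ H * Real.exp (-(Real.log X) ^ c') := by
  have hCr : (0 : ℝ) < C := by exact_mod_cast (by omega : 0 < C)
  have hKC1 : 1 ≤ 6 * C := by omega
  set e : ℝ := 1 / ((6 * C : ℕ) : ℝ) with he
  set c' : ℝ := 1 / (7 * C) with hc
  have hcp : 0 < c' := by rw [hc]; positivity
  have hep : 0 < e := by rw [he]; push_cast; positivity
  have hec : 0 < e - c' := by
    rw [he, hc]
    push_cast
    rw [sub_pos]
    apply one_div_lt_one_div_of_lt (by positivity)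
    nlinarith
  refine ⟨c', hcp, fun d hd hd1 => ?_⟩
  obtain ⟨u0, hu0, hfz⟩ := h d hd hd1
  have tN : Tendsto (fun N : ℕ => Real.log (N : ℝ)) atTop atTop :=
    Real.tendsto_log_atTop.comp tendsto_natCast_atTop_atTop
  have e1 : ∀ᶠ y : ℝ in atTop, 2 * ((u0 : ℝ) + 1) ≤ y ^ e := (tendsto_rpow_atTop hep).eventually_ge_atTop _
  have e2 : ∀ᶠ y : ℝ in atTop, (12 : ℝ) ≤ y ^ (e - c') := (tendsto_rpow_atTop hec).eventually_ge_atTop _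
  have e4 : ∀ᶠ y : ℝ in atTop, (1 : ℝ) ≤ y := eventually_ge_atTop 1
  obtain ⟨x2, hx2⟩ := eventually_atTop.1 (tN.eventually (e1.and (e2.and e4)))
  refine ⟨max x2 2, le_max_right _ _, ?_⟩
  intro X H hX hH1 hH2
  obtain ⟨g1, g2, g4⟩ := hx2 X ((le_max_left _ _).trans hX)
  have hX2 : 2 ≤ X := (le_max_right _ _).trans hX
  have hX0 : (0 : ℝ) < X := by exact_mod_cast (by omega : 0 < X)
  set x := Real.log (X : ℝ) with hx
  have hx0 : 0 ≤ x := by linarith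
  have hx00 : 0 < x := by linarith
  have hXx : (X : ℝ) = Real.exp x := by rw [hx, Real.exp_log hX0]
  obtain ⟨p1, p2⟩ := pick2 (6 * C) hKC1 x hx0
  rw [← he] at p1 p2
  set u := ⌊x ^ e⌋₊ with hu
  have hulow : x ^ e / 2 ≤ u := by
    have h1 := (Nat.lt_floor_add_one (x ^ e)).le
    rw [← hu] at h1
    have h2 : (0 : ℝ) ≤ u0 := Nat.cast_nonneg _
    linarith
  have huu0 : u0 ≤ u := by
    have : (u0 : ℝ) ≤ u := by linarith
    exact_mod_cast this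
  have key := hfz u huu0 X H (by rw [hXx]; gcongr) (by rw [hXx]; gcongr) hH1 hH2
  have hexp : x ^ c' ≤ (u : ℝ) / 6 := by
    have h1 : x ^ e = x ^ (e - c') * x ^ c' := by
      rw [← Real.rpow_add hx00]
      congr 1
      ring
    have h4 : 0 ≤ x ^ c' := by positivity
    have h5 : 12 * x ^ c' ≤ x ^ e := by rw [h1]; gcongr
    linarith
  refine key.trans ?_
  gcongr

/-- the range `x ^ (2/5 + δ) ≤ y ≤ x` -/
theorem shortPM2 (C : ℕ) (hC : 2 ≤ C)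
    (h : ∀ d : ℝ, 0 < d → d ≤ 1 / 10 → ∃ u0 : ℕ, 1 ≤ u0 ∧ ∀ u : ℕ, u0 ≤ u → ∀ X H : ℕ,
      Real.exp ((u : ℝ) ^ (6 * C)) ≤ X → (X : ℝ) ≤ Real.exp (((u : ℝ) + 1) ^ (6 * C)) →
      (X : ℝ) ^ (2 / 5 + d) ≤ H → 4 * H ≤ X → (NS PM X H : ℝ) ≤ H * Real.exp (-((u : ℝ) / 6))) :
    ∃ c' : ℝ, 0 < c' ∧ ∀ δ : ℝ, 0 < δ → ∃ x1 : ℕ, 2 ≤ x1 ∧
    ∀ x y : ℕ, x1 ≤ x → (x : ℝ) ^ (2 / 5 + δ) ≤ y → y ≤ x →
    (NS PM x y : ℝ) ≤ y * Real.exp (-(Real.log x) ^ c') := by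
  obtain ⟨c', hc', h⟩ := shortPM C hC h
  refine ⟨c', hc', fun δ hδ => ?_⟩
  set d : ℝ := min δ (1 / 10) / 2 with hd
  have hm : 0 < min δ (1 / 10) := lt_min hδ (by norm_num)
  have hd0 : 0 < d := by rw [hd]; linarith
  have hd1 : d ≤ 1 / 10 := by
    have := min_le_right δ (1 / 10)
    rw [hd]; linarith
  have hdδ : 0 < δ - d := by
    have := min_le_left δ (1 / 10)
    rw [hd]; linarith
  obtain ⟨x1, hx1, h1⟩ := h d hd0 hd1
  have t1 : Tendsto (fun x : ℕ => (x : ℝ)) atTop atTop := tendsto_natCast_atTop_atTop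
  obtain ⟨x2, hx2⟩ := eventually_atTop.1
    (((tendsto_rpow_atTop hdδ).comp t1).eventually_ge_atTop (16 : ℝ))
  refine ⟨max x1 (max x2 6), hx1.trans (le_max_left _ _), ?_⟩
  intro x y hx hy hyx
  have b1 : x1 ≤ x := (le_max_left _ _).trans hx
  have b2 : x2 ≤ x := (le_max_left _ _).trans ((le_max_right _ _).trans hx)
  have b3 : 6 ≤ x := (le_max_right _ _).trans ((le_max_right _ _).trans hx)
  have hxR : (6 : ℝ) ≤ x := by exact_mod_cast b3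
  have hx0 : (0 : ℝ) < x := by linarith
  have g := hx2 x b2
  simp only [Function.comp] at g
  have hy16 : 16 * (x : ℝ) ^ (2 / 5 + d) ≤ y := by
    have e : (x : ℝ) ^ (2 / 5 + δ) = (x : ℝ) ^ (δ - d) * (x : ℝ) ^ (2 / 5 + d) := by
      rw [← Real.rpow_add hx0]
      congr 1
      ring
    rw [e] at hy
    refine le_trans ?_ hy
    gcongr
  have hp1 : 1 ≤ (x : ℝ) ^ (2 / 5 + d) := Real.one_le_rpow (by linarith) (by positivity)
  have hyR : (16 : ℝ) ≤ y := by linarith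
  have hyN : 16 ≤ y := by exact_mod_cast hyR
  have hlog0 : 0 ≤ Real.log (x : ℝ) := Real.log_nonneg (by linarith)
  -- one piece
  have piece : ∀ X H : ℕ, x ≤ X → X ≤ 2 * x → y ≤ 8 * H → 4 * H ≤ X →
      (NS PM X H : ℝ) ≤ H * Real.exp (-(Real.log x) ^ c') := by
    intro X H k1 k2 k3 k4
    have k1r : (x : ℝ) ≤ X := by exact_mod_cast k1
    have k2r : (X : ℝ) ≤ 2 * x := by exact_mod_cast k2
    have k3r : (y : ℝ) ≤ 8 * H := by exact_mod_cast k3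
    have hA := h1 X H (b1.trans k1) (by
      have q1 : (X : ℝ) ^ (2 / 5 + d) ≤ (2 * x) ^ (2 / 5 + d) := by gcongr
      have q2 : (2 * (x : ℝ)) ^ (2 / 5 + d) = 2 ^ (2 / 5 + d) * (x : ℝ) ^ (2 / 5 + d) :=
        Real.mul_rpow (by norm_num) hx0.le
      have q3 : (2 : ℝ) ^ (2 / 5 + d) ≤ 2 := by
        have := Real.rpow_le_rpow_of_exponent_le (show (1 : ℝ) ≤ 2 by norm_num) (show 2 / 5 + d ≤ 1 by linarith)
        rwa [Real.rpow_one] at this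
      have q4 : (2 : ℝ) ^ (2 / 5 + d) * (x : ℝ) ^ (2 / 5 + d) ≤ 2 * (x : ℝ) ^ (2 / 5 + d) := by gcongr
      linarith) k4
    refine hA.trans ?_
    have hlog : Real.log (x : ℝ) ≤ Real.log (X : ℝ) := Real.log_le_log hx0 k1r
    have hpow : (Real.log (x : ℝ)) ^ c' ≤ (Real.log (X : ℝ)) ^ c' := Real.rpow_le_rpow hlog0 hlog hc'.le
    gcongr
  obtain ⟨y1, hy1⟩ : ∃ y1 : ℕ, y1 = y / 4 := ⟨_, rfl⟩
  obtain ⟨y2, hy2⟩ : ∃ y2 : ℕ, y2 = y - 3 * (y / 4) := ⟨_, rfl⟩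
  have hyy : y = y1 + (y1 + (y1 + y2)) := by omega
  have s1 := NS_split PM x y1 (y1 + (y1 + y2))
  have s2 := NS_split PM (x + y1) y1 (y1 + y2)
  have s3 := NS_split PM (x + y1 + y1) y1 y2
  rw [← hyy] at s1
  have r1 := piece x y1 le_rfl (by omega) (by omega) (by omega)
  have r2 := piece (x + y1) y1 (by omega) (by omega) (by omega) (by omega)
  have r3 := piece (x + y1 + y1) y1 (by omega) (by omega) (by omega) (by omega)
  have r4 := piece (x + y1 + y1 + y1) y2 (by omega) (by omega) (by omega) (by omega)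
  have s1' : (NS PM x y : ℝ) ≤ NS PM x y1 + NS PM (x + y1) (y1 + (y1 + y2)) := by exact_mod_cast s1
  have s2' : (NS PM (x + y1) (y1 + (y1 + y2)) : ℝ) ≤ NS PM (x + y1) y1 + NS PM (x + y1 + y1) (y1 + y2) := by
    exact_mod_cast s2
  have s3' : (NS PM (x + y1 + y1) (y1 + y2) : ℝ) ≤ NS PM (x + y1 + y1) y1 + NS PM (x + y1 + y1 + y1) y2 := by
    exact_mod_cast s3
  calc (NS PM x y : ℝ) ≤ y1 * Real.exp (-(Real.log x) ^ c') + y1 * Real.exp (-(Real.log x) ^ c') +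
        y1 * Real.exp (-(Real.log x) ^ c') + y2 * Real.exp (-(Real.log x) ^ c') := by
        linarith
    _ = y * Real.exp (-(Real.log x) ^ c') := by
        rw [hyy]; push_cast; ring

theorem extPM (C : ℕ) (hC : 2 ≤ C)
    (h : ∀ d : ℝ, 0 < d → d ≤ 1 / 10 → ∃ u0 : ℕ, 1 ≤ u0 ∧ ∀ u : ℕ, u0 ≤ u → ∀ X H : ℕ,
      Real.exp ((u : ℝ) ^ (6 * C)) ≤ X → (X : ℝ) ≤ Real.exp (((u : ℝ) + 1) ^ (6 * C)) →
      (X : ℝ) ^ (2 / 5 + d) ≤ H → 4 * H ≤ X → (NS PM X H : ℝ) ≤ H * Real.exp (-((u : ℝ) / 6))) :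
    ∃ c' : ℝ, 0 < c' ∧ ∀ δ : ℝ, 0 < δ → ∃ C1 : ℝ, 0 < C1 ∧ ∀ x y : ℕ, 2 ≤ x →
      (x : ℝ) ^ (2 / 5 + δ) ≤ y → y ≤ x → (NS PM x y : ℝ) ≤ C1 * y * Real.exp (-(Real.log x) ^ c') := by
  obtain ⟨c', hc', h⟩ := shortPM2 C hC h
  refine ⟨c', hc', fun δ hδ => ?_⟩
  obtain ⟨x1, hx1, h1⟩ := h δ hδ
  exact ext_allS PM δ c' hc' x1 hx1 h1

end Pool.Agent.H69.AL
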