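import Pool.Agent.H69.AL.Sta
import Pool.Agent.H69.AL.Win
import Pool.Agent.H69.AL.Cou
import Pool.Agent.H69.AL.Def
import Pool.Agent.H69.CU.Fin
import Pool.Agent.H69.CT.Shi

/-!
[H69 AL LST] the number of the `n` with `c n` in `(X, X + H]` which are not leaders.
-/

set_option autoImplicit false

namespace Pool.Agent.H69.AL

open Finset Classical Filter Pool.Agent.H89.CY Pool.Agent.H8.SG

theorem cyc_eq : (Cyc : ℕ → Prop) = Pool.Agent.H69.CY.IsCyclicNumber := by
  funext m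
  unfold Cyc Pool.Agent.H69.CY.IsCyclicNumber
  rcases Nat.eq_zero_or_pos m with h | h
  · subst h
    simp
  · simp [h]

theorem c_eq (n : ℕ) : c n = Pool.Agent.H69.CY.c n := by
  unfold c Pool.Agent.H69.CY.c
  rw [cyc_eq]

/-- from logarithms to powers -/
theorem pow_of_log (n m : ℕ) (a b : ℝ) (ha : 0 < a) (hb : 0 < b) (hn : 2 ≤ n) (hm : 1 ≤ m)
    (h : ((n : ℝ) - 1) * Real.log a < m * Real.log b) :
    a ^ (1 / (m : ℝ)) < b ^ (1 / ((n : ℝ) - 1)) := by
  have hn' : (2 : ℝ) ≤ n := by exact_mod_cast hn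
  have hm' : (1 : ℝ) ≤ m := by exact_mod_cast hm
  rw [Real.rpow_def_of_pos ha, Real.rpow_def_of_pos hb, Real.exp_lt_exp, mul_one_div, mul_one_div,
    div_lt_div_iff₀ (by linarith) (by linarith)]
  linarith

/-- the near terms -/
theorem near_step (n m : ℕ) (k D : ℕ) (hn : 2 ≤ n) (hm : n ≤ m)
    (hL : (8 * k * D : ℝ) < Real.log (c n)) (h : c (m + 1) ≤ c n + 8 * k * D * (m + 1 - n)) :
    (c (m + 1) : ℝ) ^ (1 / (m : ℝ)) < (c n : ℝ) ^ (1 / ((n : ℝ) - 1)) := by
  have hn' : (2 : ℝ) ≤ n := by exact_mod_cast hn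
  have hnc : n ≤ c n := c_ge n (by omega)
  have hnc' : (n : ℝ) ≤ c n := by exact_mod_cast hnc
  have hc0 : (0 : ℝ) < c n := by linarith
  have hlt : c n < c (m + 1) := c_lt n (m + 1) (by omega) (by omega)
  have hlt' : (c n : ℝ) < c (m + 1) := by exact_mod_cast hlt
  have hv0 : (0 : ℝ) < c (m + 1) := by linarith
  refine pow_of_log n m _ _ hv0 hc0 hn (by omega) ?_
  obtain ⟨t, ht⟩ : ∃ t : ℕ, m + 1 - n = t := ⟨_, rfl⟩
  have hmt : m + 1 = n + t := by omega
  have ht1 : 1 ≤ t := by omega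
  rw [ht] at h
  have htR : (1 : ℝ) ≤ t := by exact_mod_cast ht1
  have hmR : (m : ℝ) = (n : ℝ) - 1 + t := by
    have : ((m + 1 : ℕ) : ℝ) = ((n + t : ℕ) : ℝ) := by rw [hmt]
    push_cast at this
    linarith
  have hR : (c (m + 1) : ℝ) ≤ c n + 8 * k * D * t := by exact_mod_cast h
  have hlog : Real.log (c (m + 1) : ℝ) ≤ Real.log (c n) + (c (m + 1) - c n) / c n := by
    have h1 : Real.log ((c (m + 1) : ℝ) / c n) ≤ (c (m + 1) : ℝ) / c n - 1 :=
      Real.log_le_sub_one_of_pos (by positivity)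
    rw [Real.log_div hv0.ne' hc0.ne'] at h1
    have h2 : (c (m + 1) : ℝ) / c n - 1 = (c (m + 1) - c n) / c n := by
      field_simp
    linarith
  have h3 : ((n : ℝ) - 1) * ((c (m + 1) - c n) / c n) ≤ c (m + 1) - c n := by
    rw [← mul_div_assoc, div_le_iff₀ hc0]
    have : 0 ≤ (c (m + 1) : ℝ) - c n := by linarith
    nlinarith
  have h4 : 8 * (k : ℝ) * D * t < Real.log (c n) * t := by
    have : (0 : ℝ) < t := by linarith
    nlinarith
  have h5 : ((n : ℝ) - 1) * Real.log (c (m + 1) : ℝ) ≤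
      ((n : ℝ) - 1) * (Real.log (c n) + (c (m + 1) - c n) / c n) := by
    apply mul_le_mul_of_nonneg_left hlog (by linarith)
  rw [hmR]
  nlinarith

/-- the indices from the starting points -/
theorem idx (D X H : ℕ) (hD : 2 ≤ D) (Q : ℕ → Prop) (E : Finset ℕ)
    (hE : ∀ n, 2 ≤ n → Q n → X < c n → c n ≤ X + H → c n / D - X / D ∈ E) :
    NS Q X H ≤ D * E.card := by
  have hD0 : 0 < D := by omega
  have h1 : NS Q X H ≤ (E.biUnion fun s => (range D).image fun r => D * (s + X / D) + r).card := by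
    unfold NS
    rw [← Set.ncard_coe_finset]
    refine Set.ncard_le_ncard_of_injOn c ?_ ?_ (Finset.finite_toSet _)
    · rintro n ⟨h2, hQ, h3, h4⟩
      rw [mem_coe, mem_biUnion]
      refine ⟨c n / D - X / D, hE n h2 hQ h3 h4, ?_⟩
      rw [mem_image]
      refine ⟨c n % D, mem_range.2 (Nat.mod_lt _ hD0), ?_⟩
      have hq : X / D ≤ c n / D := Nat.div_le_div_right h3.le
      rw [Nat.sub_add_cancel hq]
      exact Nat.div_add_mod (c n) D
    · rintro n ⟨hn, _⟩ m ⟨hm, _⟩ h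
      rcases Nat.lt_trichotomy n m with h1 | h1 | h1
      · have := c_lt n m (by omega) h1
        omega
      · exact h1
      · have := c_lt m n (by omega) h1
        omega
  refine h1.trans (card_biUnion_le.trans ?_)
  calc ∑ s ∈ E, ((range D).image fun r => D * (s + X / D) + r).card ≤ ∑ _s ∈ E, D := by
        refine sum_le_sum fun s _ => ?_
        exact card_image_le.trans (by rw [card_range])
    _ = D * E.card := by rw [sum_const, smul_eq_mul, mul_comm]

theorem finL : ∃ C : ℕ, 2 ≤ C ∧ ∀ (d C0 W0 : ℝ) (x0 : ℕ), 0 < d → d ≤ 1 / 10 → 0 < C0 → BadB d C0 W0 x0 →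
    ∃ u0 : ℕ, 1 ≤ u0 ∧ ∀ u : ℕ, u0 ≤ u → ∀ X H : ℕ,
    Real.exp ((u : ℝ) ^ (6 * C)) ≤ X → (X : ℝ) ≤ Real.exp (((u : ℝ) + 1) ^ (6 * C)) →
    (X : ℝ) ^ (2 / 5 + d) ≤ H → 4 * H ≤ X → (NS PM X H : ℝ) ≤ H * Real.exp (-((u : ℝ) / 6)) := by
  obtain ⟨w, C, hw, hC, hsta⟩ := staS
  obtain ⟨C7, hC7, h7⟩ := Pool.Agent.H69.CU.all_n7
  refine ⟨C, hC, fun d C0 W0 x0 hd hd1 hC0 hbad => ?_⟩
  obtain ⟨u1, hu1, h1⟩ := hsta 6 (by norm_num) d C0 W0 x0 hd hC0 hbad
  obtain ⟨u2, hu2⟩ := eventually_atTop.1 (ev_pow6 (6 * C + 2))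
  obtain ⟨X3, hX3⟩ := eventually_atTop.1 (Pool.Agent.H69.CT.ev_log 2 d (1 / (2 * C7)) hd (by positivity))
  set D := primorial w with hDd
  have hD2 : 2 ≤ D := two_le_prim w hw
  refine ⟨max (max u1 u2) (max (max X3 (c 2)) (max 1000 (max (10 * D) (2 ^ (6 * C))))), ?_, ?_⟩
  · exact hu1.trans ((le_max_left _ _).trans (le_max_left _ _))
  intro u hu X H hX1 hX2 hH1 hH2
  have a1 : u1 ≤ u := ((le_max_left _ _).trans (le_max_left _ _)).trans hu
  have a2 : u2 ≤ u := ((le_max_right _ _).trans (le_max_left _ _)).trans hu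
  have ar := (le_max_right (max u1 u2) _).trans hu
  have a3 : X3 ≤ u := ((le_max_left _ _).trans (le_max_left _ _)).trans ar
  have a4 : c 2 ≤ u := ((le_max_right _ _).trans (le_max_left _ _)).trans ar
  have as := (le_max_right (max X3 (c 2)) _).trans ar
  have a5 : 1000 ≤ u := (le_max_left _ _).trans as
  have a6 : 10 * D ≤ u := ((le_max_left _ _).trans (le_max_right _ _)).trans as
  have a7 : 2 ^ (6 * C) ≤ u := ((le_max_right _ _).trans (le_max_right _ _)).trans as
  clear hu ar as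
  set U : ℝ := (u : ℝ) with hU
  have b5 : (1000 : ℝ) ≤ U := by rw [hU]; exact_mod_cast a5
  have b0 : 0 < U := by linarith
  have b1 : 1 ≤ U := by linarith
  have b6 : 10 * (D : ℝ) ≤ U := by rw [hU]; exact_mod_cast a6
  have b7 : (2 : ℝ) ^ (6 * C) ≤ U := by rw [hU]; exact_mod_cast a7
  have b2 : U ^ (6 * C + 2) ≤ Real.exp (U / 6) := hu2 u a2
  have hX0 : (0 : ℝ) < X := lt_of_lt_of_le (Real.exp_pos _) hX1
  set L := Real.log X with hL
  have hL1 : U ^ (6 * C) ≤ L := by rw [hL, Real.le_log_iff_exp_le hX0]; exact hX1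
  have hL2 : L ≤ (U + 1) ^ (6 * C) := by rw [hL, Real.log_le_iff_le_exp hX0]; exact hX2
  have hXL : (X : ℝ) = Real.exp L := (Real.exp_log hX0).symm
  have hLU : U ≤ L := by
    refine le_trans ?_ hL1
    have := pow_le_pow_right₀ b1 (show 1 ≤ 6 * C by omega)
    rwa [pow_one] at this
  have huX : u ≤ X := by
    have h2 : U ≤ X := by
      have := Real.add_one_le_exp L
      rw [hXL]
      linarith
    rw [hU] at h2
    exact_mod_cast h2
  obtain ⟨k, hk⟩ : ∃ k : ℕ, k = u ^ (4 * C) := ⟨_, rfl⟩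
  have hk1 : 1 ≤ k := by rw [hk]; exact Nat.one_le_pow _ _ (by omega)
  have hkU : (k : ℝ) = U ^ (4 * C) := by rw [hk]; push_cast; rfl
  have hkDL : (8 * k * D : ℝ) < L := by
    have h2 : (8 * k * D : ℝ) ≤ U ^ (4 * C) * U := by
      rw [hkU]
      have : (0 : ℝ) < U ^ (4 * C) := by positivity
      nlinarith
    have h3 : U ^ (4 * C) * U < U ^ (6 * C) := by
      rw [← pow_succ]
      exact pow_lt_pow_right₀ (by linarith) (by omega)
    linarith
  -- lengths
  have hH0 : (0 : ℝ) < H := lt_of_lt_of_le (Real.rpow_pos_of_pos hX0 _) hH1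
  have hDH : D ≤ H := by
    have h2 : Real.exp (2 / 5 * L) ≤ H := by
      refine le_trans ?_ hH1
      rw [hXL, ← Real.exp_mul]
      apply Real.exp_le_exp.2
      nlinarith
    have h3 := Real.add_one_le_exp (2 / 5 * L)
    have h4 : (D : ℝ) ≤ H := by
      have hD0 : (0 : ℝ) ≤ D := Nat.cast_nonneg _
      linarith
    exact_mod_cast h4
  have hHD1 : 1 ≤ H / D := (Nat.one_le_div_iff (by omega)).2 hDH
  obtain ⟨I, hI⟩ : ∃ I : ℕ, I = Nat.log 2 (H / D) := ⟨_, rfl⟩
  have hI1 : 2 ^ I ≤ H / D := by rw [hI]; exact Nat.pow_log_le_self 2 (by omega)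
  have hI2 : H / D < 2 ^ (I + 1) := by rw [hI]; exact Nat.lt_pow_succ_log_self (by norm_num) _
  -- the bad starting points
  have hsta2 := h1 u a1 X (2 * H) hX1 hX2 (by push_cast; linarith) (by omega)
  rw [← hk] at hsta2
  obtain ⟨bad, hbadd⟩ : ∃ b : ℕ → Prop, b = fun s => ∀ j < k, ¬ Cyc (1 + D * (X / D + 1) + D * (s + j)) := ⟨_, rfl⟩
  have hsta3 : (((range (2 * H / D + 2)).filter bad).card : ℝ) ≤ ((2 * H : ℕ) : ℝ) * Real.exp (-(U / 3)) := by
    rw [hbadd]
    convert hsta2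
  have hw1 := win bad (H / D + 2) I
  have hmono : ((range (H / D + 2 + 2 ^ I)).filter bad).card ≤ ((range (2 * H / D + 2)).filter bad).card := by
    refine card_le_card (filter_subset_filter _ ?_)
    intro s hs
    rw [mem_range] at hs ⊢
    have h2 : H / D + H / D ≤ 2 * H / D := by
      rw [Nat.le_div_iff_mul_le (by omega)]
      have := Nat.div_mul_le_self H D
      calc (H / D + H / D) * D = H / D * D + H / D * D := by ring
        _ ≤ 2 * H := by omega
    omega
  -- the exceptional indices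
  set E := (range (H / D + 2)).filter (fun s => ∃ i ≤ I,
      2 ^ i ≤ 2 * ((range (2 ^ i)).filter (fun t => bad (s + t))).card) with hE
  have hidx : NS PM X H ≤ D * E.card := by
    refine idx D X H hD2 PM E ?_
    intro n hn hPM hXn hnH
    by_contra hcon
    refine hPM fun m hm => ?_
    have hg : ∀ i ≤ I, ¬ (2 ^ i ≤ 2 * ((range (2 ^ i)).filter (fun τ => ∀ j < k,
      ¬ Cyc (1 + D * (X / D + 1) + D * ((c n / D - X / D + τ) + j)))).card) := by
      intro i hi hlt
      apply hcon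
      rw [hE, mem_filter, mem_range]
      refine ⟨?_, i, hi, by rw [hbadd]; convert hlt⟩
      have h2 : c n / D ≤ (X + H) / D := Nat.div_le_div_right hnH
      have h3 : (X + H) / D ≤ X / D + H / D + 1 := by
        rw [← Nat.lt_succ_iff, Nat.div_lt_iff_lt_mul (by omega)]
        have e1 := Nat.lt_mul_div_succ X (show 0 < D by omega)
        have e2 := Nat.lt_mul_div_succ H (show 0 < D by omega)
        have e3 : (X / D + H / D + 1).succ * D = D * (X / D + 1) + D * (H / D + 1) := by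
          rw [Nat.succ_eq_add_one]; ring
        omega
      omega
    have hn3 : 3 ≤ n := by
      by_contra h2
      have h3 : n = 2 := by omega
      rw [h3] at hXn
      omega
    have hcnX : (X : ℝ) ≤ c n := by exact_mod_cast hXn.le
    have hLc : L ≤ Real.log (c n) := Real.log_le_log hX0 hcnX
    rcases Nat.lt_or_ge (2 ^ I) (2 * k * (m + 1 - n)) with h2 | h2
    · -- far terms
      obtain ⟨t, ht⟩ : ∃ t : ℕ, m + 1 - n = t := ⟨_, rfl⟩
      rw [ht] at h2
      have h3 : H < 4 * k * D * t := by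
        have e1 := Nat.lt_mul_div_succ H (show 0 < D by omega)
        have e2 : D * (H / D + 1) ≤ D * 2 ^ (I + 1) := Nat.mul_le_mul_left D hI2
        have e3 : D * 2 ^ (I + 1) = 2 * D * 2 ^ I := by rw [pow_succ]; ring
        have e4 : 2 * D * 2 ^ I ≤ 2 * D * (2 * k * t) := Nat.mul_le_mul_left _ h2.le
        have e5 : 2 * D * (2 * k * t) = 4 * k * D * t := by ring
        omega
      have h3R : (H : ℝ) < 4 * k * D * t := by exact_mod_cast h3
      have hn1 : ((n - 1 : ℕ) : ℝ) = (n : ℝ) - 1 := by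
        rw [Nat.cast_sub (by omega)]
        simp
      have hnR : (3 : ℝ) ≤ n := by exact_mod_cast hn3
      have hnX : (n : ℝ) - 1 ≤ 2 * X := by
        have h4 : n ≤ c n := c_ge n (by omega)
        have h5 : (n : ℝ) ≤ 2 * X := by exact_mod_cast (by omega : n ≤ 2 * X)
        linarith
      have hmR : (m : ℝ) = (n : ℝ) - 1 + t := by
        have h4 : m + 1 = n + t := by omega
        have : ((m + 1 : ℕ) : ℝ) = ((n + t : ℕ) : ℝ) := by rw [h4]
        push_cast at this
        linarith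
      have hlog2 : Real.log ((n : ℝ) - 1) ≤ 2 * L := by
        have h4 : Real.log ((n : ℝ) - 1) ≤ Real.log (2 * X) := Real.log_le_log (by linarith) hnX
        rw [Real.log_mul (by norm_num) hX0.ne'] at h4
        have h5 : Real.log 2 ≤ 1 := by linarith [Real.log_two_lt_d9]
        linarith
      have hlog0 : 0 ≤ Real.log ((n : ℝ) - 1) := Real.log_nonneg (by linarith)
      have hpow : ((n : ℝ) - 1) ^ (2 / 5 : ℝ) ≤ 2 * (X : ℝ) ^ (2 / 5 : ℝ) := by
        calc ((n : ℝ) - 1) ^ (2 / 5 : ℝ) ≤ (2 * (X : ℝ)) ^ (2 / 5 : ℝ) :=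
              Real.rpow_le_rpow (by linarith) hnX (by norm_num)
          _ = 2 ^ (2 / 5 : ℝ) * (X : ℝ) ^ (2 / 5 : ℝ) := Real.mul_rpow (by norm_num) hX0.le
          _ ≤ 2 * (X : ℝ) ^ (2 / 5 : ℝ) := by
              have h6 : (2 : ℝ) ^ (2 / 5 : ℝ) ≤ 2 := by
                have := Real.rpow_le_rpow_of_exponent_le (show (1 : ℝ) ≤ 2 by norm_num)
                  (show (2 / 5 : ℝ) ≤ 1 by norm_num)
                rwa [Real.rpow_one] at this
              gcongr
      have hXd : 2 * C7 * L ^ 2 ≤ (X : ℝ) ^ d := by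
        have h4 := hX3 X (a3.trans huX)
        rw [← hL] at h4
        have h5 : 2 * C7 * L ^ 2 ≤ 2 * C7 * (1 / (2 * C7) * (X : ℝ) ^ d) := by gcongr
        have h6 : 2 * C7 * (1 / (2 * C7) * (X : ℝ) ^ d) = (X : ℝ) ^ d := by
          field_simp
        linarith
      have hfar : C7 * ((n : ℝ) - 1) ^ (2 / 5 : ℝ) * Real.log ((n : ℝ) - 1) ≤ t := by
        have hP : 0 < (X : ℝ) ^ (2 / 5 : ℝ) := Real.rpow_pos_of_pos hX0 _
        have h4 : C7 * ((n : ℝ) - 1) ^ (2 / 5 : ℝ) * Real.log ((n : ℝ) - 1) ≤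
            C7 * (2 * (X : ℝ) ^ (2 / 5 : ℝ)) * (2 * L) := by
          gcongr
        have h5 : (X : ℝ) ^ (2 / 5 : ℝ) * (2 * C7 * L ^ 2) ≤ H := by
          refine le_trans ?_ hH1
          rw [Real.rpow_add hX0]
          gcongr
        have h6 : (4 * (k : ℝ) * D) * (C7 * (2 * (X : ℝ) ^ (2 / 5 : ℝ)) * (2 * L)) ≤
            (L / 2) * (C7 * (2 * (X : ℝ) ^ (2 / 5 : ℝ)) * (2 * L)) := by
          apply mul_le_mul_of_nonneg_right (by linarith) (by positivity)
        have h7' : (L / 2) * (C7 * (2 * (X : ℝ) ^ (2 / 5 : ℝ)) * (2 * L)) =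
            (X : ℝ) ^ (2 / 5 : ℝ) * (2 * C7 * L ^ 2) := by ring
        have h8 : (4 * (k : ℝ) * D) * (C7 * (2 * (X : ℝ) ^ (2 / 5 : ℝ)) * (2 * L)) < (4 * (k : ℝ) * D) * t := by
          linarith
        have h9 : (0 : ℝ) < 4 * (k : ℝ) * D := by
          have : (1 : ℝ) ≤ k := by exact_mod_cast hk1
          have : (2 : ℝ) ≤ D := by exact_mod_cast hD2
          positivity
        have h10 := lt_of_mul_lt_mul_left h8 h9.le
        linarith
      have h11 := h7 (n - 1) m (by omega) (by rw [hn1, hmR]; linarith)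
      have e3 : n - 1 + 1 = n := by omega
      rw [e3, hn1] at h11
      rw [c_eq, c_eq]
      exact h11
    · -- near terms
      have h3 := cou D k X n I hD2 hk1 (by omega) hXn hg (m + 1 - n) (by omega) h2
      have e1 : n + (m + 1 - n) = m + 1 := by omega
      rw [e1] at h3
      exact near_step n m k D hn hm (by linarith) h3
  -- the numbers
  have hI3 : (I : ℝ) ≤ 2 * L := by
    have h2 : 2 ^ I ≤ X := hI1.trans ((Nat.div_le_self _ _).trans (by omega))
    have h3 : (2 : ℝ) ^ I ≤ X := by exact_mod_cast h2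
    have h4 := Real.log_le_log (by positivity) h3
    rw [Real.log_pow] at h4
    have h5 := Real.log_two_gt_d9
    have h6 : (0 : ℝ) ≤ I := Nat.cast_nonneg _
    nlinarith
  have hLU2 : L ≤ U * U ^ (6 * C) := by
    refine hL2.trans ?_
    calc (U + 1) ^ (6 * C) ≤ (2 * U) ^ (6 * C) := pow_le_pow_left₀ (by linarith) (by linarith) _
      _ = 2 ^ (6 * C) * U ^ (6 * C) := mul_pow _ _ _
      _ ≤ U * U ^ (6 * C) := by gcongr
  have hnum : 4 * (D : ℝ) * (I + 1) ≤ Real.exp (U / 6) := by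
    have hD0 : (0 : ℝ) ≤ D := Nat.cast_nonneg _
    have h2 : 4 * (D : ℝ) * (I + 1) ≤ 10 * D * L := by
      have h3 : 4 * ((I : ℝ) + 1) ≤ 10 * L := by linarith
      nlinarith
    have h3 : 10 * (D : ℝ) * L ≤ U * (U * U ^ (6 * C)) := by gcongr
    have h4 : U * (U * U ^ (6 * C)) = U ^ (6 * C + 2) := by ring
    linarith
  have hfin : (NS PM X H : ℝ) ≤ D * (2 * (I + 1) * (((2 * H : ℕ) : ℝ) * Real.exp (-(U / 3)))) := by
    have h2 : (NS PM X H : ℝ) ≤ D * E.card := by exact_mod_cast hidx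
    have h3 : (E.card : ℝ) ≤ 2 * (I + 1) * ((range (2 * H / D + 2)).filter bad).card := by
      exact_mod_cast hw1.trans (Nat.mul_le_mul_left _ hmono)
    calc (NS PM X H : ℝ) ≤ D * E.card := h2
      _ ≤ D * (2 * (I + 1) * ((range (2 * H / D + 2)).filter bad).card) := by gcongr
      _ ≤ D * (2 * (I + 1) * (((2 * H : ℕ) : ℝ) * Real.exp (-(U / 3)))) := by gcongr
  calc (NS PM X H : ℝ) ≤ D * (2 * (I + 1) * (((2 * H : ℕ) : ℝ) * Real.exp (-(U / 3)))) := hfin
    _ = (4 * (D : ℝ) * (I + 1)) * (H * Real.exp (-(U / 3))) := by push_cast; ring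
    _ ≤ Real.exp (U / 6) * (H * Real.exp (-(U / 3))) := by gcongr
    _ = H * (Real.exp (U / 6) * Real.exp (-(U / 3))) := by ring
    _ = H * Real.exp (-(U / 6)) := by
        rw [← Real.exp_add]
        congr 2
        ring

end Pool.Agent.H69.AL
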