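import Pool.Agent.H69.AL.Ext
import Pool.Agent.H69.AL.Lst
import Pool.Agent.H8.SG.Main

/-!
[H69 AL MAIN4] leaders in short intervals.
-/

set_option autoImplicit false

namespace Pool.Agent.H69.AL

open Finset Classical Pool.Agent.H89.CY Pool.Agent.H8.SG

theorem lead4 : ∃ c' : ℝ, 0 < c' ∧ ∀ δ : ℝ, 0 < δ → ∃ C1 : ℝ, 0 < C1 ∧ ∀ x y : ℕ, 2 ≤ x →
      (x : ℝ) ^ (2 / 5 + δ) ≤ y → y ≤ x → (NS PM x y : ℝ) ≤ C1 * y * Real.exp (-(Real.log x) ^ c') := by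
  obtain ⟨C, hC, h⟩ := finL
  refine extPM C hC fun d hd hd1 => ?_
  obtain ⟨C0, W0, x0, hC0, hb1⟩ := hb d hd hd1
  exact h d C0 W0 x0 hd hd1 hC0 hb1

theorem main4 :
    (∀ ε : ℝ, 0 < ε → ∃ c' : ℝ, 0 < c' ∧ ∀ δ : ℝ, 0 < δ → ∃ C : ℝ, 0 < C ∧ ∀ x y : ℕ, 2 ≤ x →
      (x : ℝ) ^ (2 / 5 + δ) ≤ y → y ≤ x → (NS (Long ε) x y : ℝ) ≤ C * y * Real.exp (-(Real.log x) ^ c')) ∧
    (∃ c' : ℝ, 0 < c' ∧ ∀ δ : ℝ, 0 < δ → ∃ C : ℝ, 0 < C ∧ ∀ x y : ℕ, 2 ≤ x → (x : ℝ) ^ (2 / 5 + δ) ≤ y → y ≤ x →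
        (NS PM x y : ℝ) ≤ C * y * Real.exp (-(Real.log x) ^ c')) ∧
    (∃ c' : ℝ, 0 < c' ∧ ∀ δ : ℝ, 0 < δ → ∀ lam : ℝ, 0 < lam → ∃ C : ℝ, 0 < C ∧ ∀ x y : ℕ, 2 ≤ x →
      (x : ℝ) ^ (2 / 5 + δ) ≤ y → y ≤ x →
        (NS (FailsL lam) x y : ℝ) ≤ C * y * Real.exp (-(Real.log x) ^ c')) := by
  refine ⟨main3.1, lead4, ?_⟩
  obtain ⟨c', hc', h⟩ := main3.2
  exact ⟨c', hc', fun δ hδ => (h δ hδ).2⟩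

end Pool.Agent.H69.AL
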