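import Pool.Agent.H69.AL.Trial

/-!
# MP_821da1_nt: draft of the final statement with the explicit algorithm (helper69)
-/

namespace Pool.Agent.H69.AL.ResT

open MvPolynomial

/-- the polynomial with the list of coefficients `c`, constant coefficient first -/
noncomputable def poly (c : List ℤ) : Polynomial ℤ :=
  ∑ i ∈ Finset.range c.length, Polynomial.C (c.getD i 0) * Polynomial.X ^ i

/-- `q` is not zero and has no irreducible factor of degree `1` or `2` over `ℚ` -/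
def Deg3 (q : Polynomial ℤ) : Prop :=
  q ≠ 0 ∧ ∀ p : Polynomial ℚ, Irreducible p → p ∣ q.map (Int.castRingHom ℚ) → 3 ≤ p.natDegree

/-- every point at infinity of `F = 0` over a number field `L` with a real embedding has a zero of
`q` in `L` -/
def AtInf (q : Polynomial ℤ) (F : MvPolynomial (Fin 2) ℤ) : Prop :=
  ∀ (L : Type) [Field L] [NumberField L], Nonempty (L →+* ℝ) → ∀ X Y : LaurentSeries L,
    eval₂ (Int.castRingHom (LaurentSeries L)) ![X, Y] F = 0 →
      (X ∈ (HahnSeries.ofPowerSeries ℤ L).range ∧ Y ∈ (HahnSeries.ofPowerSeries ℤ L).range) ∨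
        ∃ z : L, Polynomial.aeval z q = 0

/-- `max(|x|, |y|) ≤ H^E` for all integer zeros `(x, y)` of all `F` of degree at most `n` with
coefficients in `[-H, H]`, `H ≥ 2`, and with `AtInf q F` -/
def Bound (q : Polynomial ℤ) (n E : ℕ) : Prop :=
  ∀ (H : ℕ) (F : MvPolynomial (Fin 2) ℤ), 2 ≤ H → F.totalDegree ≤ n →
    (∀ m, |coeff m F| ≤ (H : ℤ)) → AtInf q F →
      ∀ x y : ℤ, eval ![x, y] F = 0 → max |x| |y| ≤ (H : ℤ) ^ E

/-- the number of fields `ℚ(a)`, `a` a real zero of `q` -/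
noncomputable def realFields (q : Polynomial ℤ) : ℕ :=
  Set.ncard {K : IntermediateField ℚ ℝ | ∃ a : ℝ, Polynomial.aeval a q = 0 ∧
    K = IntermediateField.adjoin ℚ {a}}

/-- the explicit exponent -/
def expo (n : ℕ) : ℕ := (2 * (n + 1) ^ 2 + 1) ^ 2 * 2 ^ (2 * n ^ 2).factorial

theorem result :
    (∀ q : Polynomial ℤ, Deg3 q → ∃ E : ℕ → ℕ, Computable E ∧ ∀ n : ℕ, Bound q n (E n)) ∧
    ∃ e : List ℤ × ℕ × ℕ → ℕ, Primrec e ∧ ∀ c : List ℤ, Deg3 (poly c) → ∀ n : ℕ,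
      (Monotone fun s => e (c, n, s)) ∧ e (c, n, 0) = expo (max n 3) ∧
      (Set.range fun s => e (c, n, s)).Finite ∧
      (Set.range fun s => e (c, n, s)).ncard ≤ realFields (poly c) + 1 ∧
      ∃ s₀, (∀ s, s₀ ≤ s → e (c, n, s) = e (c, n, s₀)) ∧ Bound (poly c) n (e (c, n, s₀)) := by
  have hb : ∀ q n E, Pool.Agent.H98.AL.Bnd q n E → Bound q n E := by
    intro q n E h H F hH2 hdeg hH hF x y h0
    have h1 := h H F hH2 hdeg hH hF x y (by rw [Pool.Agent.H98.AL.vl_eval, h0])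
    rw [← Pool.Agent.H98.AL.sz_max]
    exact_mod_cast h1
  refine ⟨fun q hq => ?_, ?_⟩
  · obtain ⟨E, hE, h⟩ := Pool.Agent.H98.AL.main_one q hq
    exact ⟨E, hE, fun n => hb _ _ _ (h n)⟩
  · obtain ⟨e, he, h⟩ := Pool.Agent.H69.AL.trial
    refine ⟨e, he, fun c hc n => ?_⟩
    obtain ⟨h1, h2, h3, h4, s0, h5, h6⟩ := h c hc n
    refine ⟨h1, ?_, h3, h4, s0, h5, hb _ _ _ h6⟩
    rw [h2, Pool.Agent.H37.AL.CB_eq, expo]
    generalize 2 * (max n 3 + 1) ^ 2 + 1 = a
    generalize 2 ^ (2 * max n 3 ^ 2).factorial = b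
    ring

end Pool.Agent.H69.AL.ResT
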