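import Pool.Agent.H98.AL.Main2

/-!
# [H69 AL TRIAL] An explicit algorithm with few changes of its answer

`trial`: a primitive recursive `e(q, N, s)`, nondecreasing in `s`, which starts with `C N`, takes at most `r + 1` values
(`r` bounds the length of the chains of objects whose sizes grow by `W N`-th powers) and whose last value bounds all
sizes of the objects of the level `N`.
-/

namespace Pool.Agent.H69.AL

open Pool.Agent.H8.Siegel Pool.Agent.H98.AL Pool.Agent.H37.AL

section abs

variable {Q T : Type} [Primcodable Q] [Primcodable T] (lev : Q → ℕ → T → Bool) (sz : T → ℕ)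
  (W C : ℕ → ℕ)

/-- the next value: `e` is the present value, `o` the object of the present stage -/
def nxt (q : Q) (N e : ℕ) (o : Option T) : ℕ :=
  Option.casesOn o e fun t => bif (lev q N t && decide (e < sz t)) then sz t ^ W N else e

/-- the value at the stage `s` -/
def tri (q : Q) (N s : ℕ) : ℕ :=
  Nat.rec (C N) (fun k e => nxt lev sz W q N e (Encodable.decode (α := T) k)) s

theorem tri_zero (q : Q) (N : ℕ) : tri lev sz W C q N 0 = C N := rfl

theorem tri_succ (q : Q) (N s : ℕ) : tri lev sz W C q N (s + 1) =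
    nxt lev sz W q N (tri lev sz W C q N s) (Encodable.decode (α := T) s) := rfl

theorem primrec_tri (hlev : Primrec fun p : Q × ℕ × T => lev p.1 p.2.1 p.2.2) (hsz : Primrec sz)
    (hW : Primrec W) (hC : Primrec C) :
    Primrec fun p : Q × ℕ × ℕ => tri lev sz W C p.1 p.2.1 p.2.2 := by
  unfold tri
  refine Primrec.nat_rec' (f := fun p : Q × ℕ × ℕ => p.2.2) (g := fun p => C p.2.1)
    (h := fun p (v : ℕ × ℕ) => nxt lev sz W p.1 p.2.1 v.2 (Encodable.decode (α := T) v.1))
    (Primrec.snd.comp Primrec.snd) (hC.comp (Primrec.fst.comp Primrec.snd)) ?_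
  unfold nxt
  have hk : Primrec fun z : (Q × ℕ × ℕ) × (ℕ × ℕ) => z.2.1 := Primrec.fst.comp Primrec.snd
  have he : Primrec fun z : (Q × ℕ × ℕ) × (ℕ × ℕ) => z.2.2 := Primrec.snd.comp Primrec.snd
  refine Primrec.option_casesOn (o := fun z : (Q × ℕ × ℕ) × (ℕ × ℕ) =>
      Encodable.decode (α := T) z.2.1) (f := fun z => z.2.2)
    (g := fun z t => bif (lev z.1.1 z.1.2.1 t && decide (z.2.2 < sz t)) then sz t ^ W z.1.2.1
      else z.2.2) (Primrec.decode.comp hk) he ?_
  have h0 : Primrec fun z : ((Q × ℕ × ℕ) × (ℕ × ℕ)) × T => z.1.1.1 :=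
    Primrec.fst.comp (Primrec.fst.comp Primrec.fst)
  have h1 : Primrec fun z : ((Q × ℕ × ℕ) × (ℕ × ℕ)) × T => z.1.1.2.1 :=
    Primrec.fst.comp (Primrec.snd.comp (Primrec.fst.comp Primrec.fst))
  have h2 : Primrec fun z : ((Q × ℕ × ℕ) × (ℕ × ℕ)) × T => z.1.2.2 :=
    Primrec.snd.comp (Primrec.snd.comp Primrec.fst)
  have h3 : Primrec fun z : ((Q × ℕ × ℕ) × (ℕ × ℕ)) × T => z.2 := Primrec.snd
  have h4 : Primrec fun z : ((Q × ℕ × ℕ) × (ℕ × ℕ)) × T => lev z.1.1.1 z.1.1.2.1 z.2 :=
    hlev.comp (Primrec.pair h0 (Primrec.pair h1 h3))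
  have h5 : Primrec fun z : ((Q × ℕ × ℕ) × (ℕ × ℕ)) × T => decide (z.1.2.2 < sz z.2) :=
    PrimrecPred.decide (PrimrecRel.comp Primrec.nat_lt h2 (hsz.comp h3))
  have h6 : Primrec fun z : ((Q × ℕ × ℕ) × (ℕ × ℕ)) × T => sz z.2 ^ W z.1.1.2.1 :=
    primrec_pow.comp (hsz.comp h3) (hW.comp h1)
  exact Primrec.cond (Primrec.and.comp h4 h5) h6 h2

variable {lev sz W}

theorem nxt_ge (hW1 : ∀ N, 1 ≤ W N) (q : Q) (N e : ℕ) (o : Option T) :
    e ≤ nxt lev sz W q N e o := by
  cases o with
  | none => exact le_rfl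
  | some t =>
    change e ≤ bif (lev q N t && decide (e < sz t)) then sz t ^ W N else e
    cases h : (lev q N t && decide (e < sz t)) with
    | false => exact le_rfl
    | true =>
      simp only [Bool.and_eq_true, decide_eq_true_eq] at h
      have h1 : sz t ^ 1 ≤ sz t ^ W N := Nat.pow_le_pow_right (by omega) (hW1 N)
      rw [pow_one] at h1
      exact h.2.le.trans h1

theorem tri_mono (hW1 : ∀ N, 1 ≤ W N) (q : Q) (N : ℕ) :
    Monotone fun s => tri lev sz W C q N s :=
  monotone_nat_of_le_succ fun s => by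
    change tri lev sz W C q N s ≤ tri lev sz W C q N (s + 1)
    rw [tri_succ]
    exact nxt_ge hW1 _ _ _ _

/-- every object of the level is taken into account -/
theorem tri_cover (hW1 : ∀ N, 1 ≤ W N) {q : Q} {N : ℕ} {t : T} (ht : lev q N t = true) {s : ℕ}
    (hs : Encodable.encode t < s) : sz t ≤ tri lev sz W C q N s := by
  have h1 : sz t ≤ tri lev sz W C q N (Encodable.encode t + 1) := by
    rw [tri_succ, Encodable.encodek]
    change sz t ≤ bif (lev q N t && decide (tri lev sz W C q N (Encodable.encode t) < sz t))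
      then sz t ^ W N else tri lev sz W C q N (Encodable.encode t)
    by_cases h : tri lev sz W C q N (Encodable.encode t) < sz t
    · rw [ht, decide_eq_true h]
      have h1 : sz t ^ 1 ≤ sz t ^ W N := Nat.pow_le_pow_right (by omega) (hW1 N)
      rw [pow_one] at h1
      exact h1
    · rw [ht, decide_eq_false h]
      exact not_lt.1 h
  exact h1.trans (tri_mono C hW1 q N hs)

/-- the list `l` records the changes before the stage `s` -/
def Rec (lev : Q → ℕ → T → Bool) (sz : T → ℕ) (W C : ℕ → ℕ) (q : Q) (N s : ℕ) (l : List T) :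
    Prop :=
  (∀ t ∈ l, lev q N t = true) ∧ (l.Pairwise fun s t => sz t ^ W N < sz s) ∧
    (∀ t ∈ l, sz t ^ W N ≤ tri lev sz W C q N s) ∧
      ∀ s' ≤ s, tri lev sz W C q N s' ∈ insert (C N) (l.map fun t => sz t ^ W N).toFinset

theorem rec_zero (q : Q) (N : ℕ) : Rec lev sz W C q N 0 [] := by
  refine ⟨fun t ht => by simp at ht, List.Pairwise.nil, fun t ht => by simp at ht, ?_⟩
  intro s' hs'
  have : s' = 0 := by omega
  subst this
  rw [tri_zero]
  exact Finset.mem_insert_self _ _

theorem rec_step {q : Q} {N s : ℕ} {l : List T} (h : Rec lev sz W C q N s l) :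
    (Rec lev sz W C q N (s + 1) l ∧ tri lev sz W C q N (s + 1) = tri lev sz W C q N s) ∨
      ∃ t, Rec lev sz W C q N (s + 1) (t :: l) := by
  obtain ⟨h1, h2, h3, h4⟩ := h
  by_cases hc : ∃ t, Encodable.decode (α := T) s = some t ∧ lev q N t = true ∧
      tri lev sz W C q N s < sz t
  · right
    obtain ⟨t, ht, htl, hts⟩ := hc
    have hv : tri lev sz W C q N (s + 1) = sz t ^ W N := by
      rw [tri_succ, ht]
      change (bif (lev q N t && decide (tri lev sz W C q N s < sz t))
        then sz t ^ W N else tri lev sz W C q N s) = sz t ^ W N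
      rw [htl, decide_eq_true hts]
      rfl
    refine ⟨t, ?_, ?_, ?_, ?_⟩
    · intro u hu
      rcases List.mem_cons.1 hu with rfl | hu
      · exact htl
      · exact h1 u hu
    · exact List.pairwise_cons.2 ⟨fun u hu => lt_of_le_of_lt (h3 u hu) hts, h2⟩
    · intro u hu
      rcases List.mem_cons.1 hu with rfl | hu
      · exact hv.ge
      · rw [hv]
        have h5 := h3 u hu
        have h6 : sz t ≤ sz t ^ W N ∨ W N = 0 := by
          rcases Nat.eq_zero_or_pos (W N) with h | h
          · exact Or.inr h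
          · left
            calc sz t = sz t ^ 1 := (pow_one _).symm
              _ ≤ _ := Nat.pow_le_pow_right (by omega) h
        rcases h6 with h6 | h6
        · omega
        · rw [h6, pow_zero, pow_zero]
    · intro s' hs'
      rcases Nat.lt_or_ge s s' with h | h
      · have : s' = s + 1 := by omega
        subst this
        rw [hv]
        refine Finset.mem_insert_of_mem ?_
        rw [List.mem_toFinset]
        exact List.mem_map.2 ⟨t, List.mem_cons_self, rfl⟩
      · have h5 := h4 s' h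
        rw [Finset.mem_insert, List.mem_toFinset] at h5 ⊢
        rcases h5 with h5 | h5
        · exact Or.inl h5
        · right
          rw [List.map_cons]
          exact List.mem_cons_of_mem _ h5
  · left
    have hv : tri lev sz W C q N (s + 1) = tri lev sz W C q N s := by
      rw [tri_succ]
      cases ho : Encodable.decode (α := T) s with
      | none => rfl
      | some t =>
        change (bif (lev q N t && decide (tri lev sz W C q N s < sz t))
          then sz t ^ W N else tri lev sz W C q N s) = tri lev sz W C q N s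
        cases h : (lev q N t && decide (tri lev sz W C q N s < sz t)) with
        | false => rfl
        | true =>
          simp only [Bool.and_eq_true, decide_eq_true_eq] at h
          exact absurd ⟨t, ho, h.1, h.2⟩ hc
    refine ⟨⟨h1, h2, fun t ht => ?_, fun s' hs' => ?_⟩, hv⟩
    · rw [hv]
      exact h3 t ht
    · rcases Nat.lt_or_ge s s' with h | h
      · have : s' = s + 1 := by omega
        subst this
        rw [hv]
        exact h4 s le_rfl
      · exact h4 s' h

/-- the number of values, and the last value -/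
theorem tri_fin {q : Q} {N r : ℕ}
    (hr : ∀ l : List T, (∀ t ∈ l, lev q N t = true) →
      (l.Pairwise fun s t => sz t ^ W N < sz s) → l.length ≤ r) :
    (∃ s0, ∀ s, s0 ≤ s → tri lev sz W C q N s = tri lev sz W C q N s0) ∧
      (Set.range fun s => tri lev sz W C q N s).Finite ∧
        (Set.range fun s => tri lev sz W C q N s).ncard ≤ r + 1 := by
  classical
  let P : ℕ → Prop := fun k => ∃ s l, l.length = k ∧ Rec lev sz W C q N s l
  have hP0 : P 0 := ⟨0, [], rfl, rec_zero C q N⟩
  obtain ⟨k, hk, hk'⟩ : ∃ k, P k ∧ ¬ P (k + 1) := by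
    by_contra hcon
    push Not at hcon
    have : ∀ k, P k := fun k => by
      induction k with
      | zero => exact hP0
      | succ k ih => exact hcon k ih
    obtain ⟨s, l, hl, h1, h2, -⟩ := this (r + 1)
    have := hr l h1 h2
    omega
  obtain ⟨s0, l, hl, hrec⟩ := hk
  have key : ∀ d, Rec lev sz W C q N (s0 + d) l ∧
      tri lev sz W C q N (s0 + d) = tri lev sz W C q N s0 := by
    intro d
    induction d with
    | zero => exact ⟨hrec, rfl⟩
    | succ d ih =>
      rcases rec_step C ih.1 with h | ⟨t, h⟩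
      · exact ⟨h.1, h.2.trans ih.2⟩
      · exact absurd ⟨s0 + (d + 1), t :: l, by rw [List.length_cons, hl], h⟩ hk'
  have hsub : (Set.range fun s => tri lev sz W C q N s) ⊆
      ((insert (C N) (l.map fun t => sz t ^ W N).toFinset : Finset ℕ) : Set ℕ) := by
    rintro _ ⟨s, rfl⟩
    exact (key s).1.2.2.2 s (Nat.le_add_left _ _)
  refine ⟨⟨s0, fun s hs => ?_⟩, (Finset.finite_toSet _).subset hsub, ?_⟩
  · obtain ⟨d, rfl⟩ := Nat.exists_eq_add_of_le hs
    exact (key d).2
  · have h1 := Set.ncard_le_ncard hsub (Finset.finite_toSet _)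
    rw [Set.ncard_coe_finset] at h1
    have h2 := Finset.card_insert_le (C N) (l.map fun t => sz t ^ W N).toFinset
    have h3 := List.toFinset_card_le (l.map fun t => sz t ^ W N)
    rw [List.length_map] at h3
    have h4 := hr l hrec.1 hrec.2.1
    omega

end abs

/-- **The explicit algorithm**, on codes. -/
theorem trial_code : ∃ e : Code × ℕ × ℕ → ℕ, Primrec e ∧ ∀ c : Code, Deg3 (uni c) → ∀ n : ℕ,
    (Monotone fun s => e (c, n, s)) ∧ e (c, n, 0) = CB (max n 3) ∧
      (Set.range fun s => e (c, n, s)).Finite ∧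
      (Set.range fun s => e (c, n, s)).ncard ≤ (RF (uni c)).ncard + 1 ∧
      ∃ s0, (∀ s, s0 ≤ s → e (c, n, s) = e (c, n, s0)) ∧ Bnd (uni c) n (e (c, n, s0)) := by
  obtain ⟨T, hT, lev, sz', hlev, hsz, h1, h2⟩ := exists_lev3
  have hWB1 : ∀ N, 1 ≤ WB N := fun N => Nat.le_add_left 1 _
  refine ⟨fun p => tri lev sz' WB CB p.1 (max p.2.1 3) p.2.2, ?_, fun c hc n => ?_⟩
  · exact (primrec_tri lev sz' WB CB hlev hsz primrec_WB primrec_CB).comp
      (Primrec.pair Primrec.fst (Primrec.pair (Primrec.nat_max.comp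
        (Primrec.fst.comp Primrec.snd) (Primrec.const 3)) (Primrec.snd.comp Primrec.snd)))
  obtain ⟨N, hN⟩ : ∃ N, N = max n 3 := ⟨_, rfl⟩
  have hnN : n ≤ N := by omega
  have hN3 : 3 ≤ N := by omega
  have hr : ∀ l : List T, (∀ t ∈ l, lev c N t = true) →
      (l.Pairwise fun s t => sz' t ^ WB N < sz' s) → l.length ≤ (RF (uni c)).ncard := by
    intro l hl hp
    rw [← List.length_map sz']
    refine chain_lenQ hc hN3 le_rfl (l.map sz') ?_ ?_
    · intro z hz
      rw [List.mem_map] at hz
      obtain ⟨t, ht, rfl⟩ := hz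
      exact h1 c N t (hl t ht)
    · rw [List.pairwise_map]
      refine hp.imp fun {s t} hst => ?_
      refine lt_of_le_of_lt ?_ hst
      rcases Nat.eq_zero_or_pos (sz' t) with h0 | h0
      · rw [h0]
        have hW : WA N ≠ 0 := by
          unfold WA
          positivity
        rw [zero_pow hW]
        exact Nat.zero_le _
      · exact Nat.pow_le_pow_right h0 (Nat.le_succ _)
  have key : ∀ H : ℕ, ∀ F : P2, 2 ≤ H → F.totalDegree ≤ n →
      (∀ t, |MvPolynomial.coeff t F| ≤ (H : ℤ)) → Star (uni c) F → ∀ x y : ℤ, vl F x y = 0 →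
      H ^ CB N < Pool.Agent.H37.AL.sz x y →
      ∃ t, lev c N t = true ∧ sz' t = Pool.Agent.H37.AL.sz x y := by
    intro H F hH2 hdeg hH hstar x y h0 hbig
    obtain ⟨G, hGF, hirr, hGdeg, hGs, hG0, hGH⟩ := fac_star hc hH2 (hdeg.trans hnN) hH hstar h0
    have hH2' : 2 ≤ H ^ (2 * (N + 1) ^ 2 + 1) := by
      calc 2 ≤ H := hH2
        _ = H ^ 1 := (pow_one H).symm
        _ ≤ _ := Nat.pow_le_pow_right (by omega) (by omega)
    refine h2 c N G _ x y hirr hGs hGdeg hGH hH2' hG0 ?_
    rw [← pow_mul]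
    exact hbig
  obtain ⟨⟨s0, hs0⟩, hf, hcard⟩ := tri_fin (lev := lev) (sz := sz') (W := WB) CB hr
  have hmono := tri_mono (lev := lev) (sz := sz') (W := WB) CB hWB1 c N
  simp only [← hN]
  refine ⟨hmono, tri_zero lev sz' WB CB c N, hf, hcard, s0, hs0, ?_⟩
  intro H F hH2 hdeg hH hstar x y hxy
  by_contra hcon
  push Not at hcon
  have h3 : CB N ≤ tri lev sz' WB CB c N s0 := by
    have h4 := hmono (Nat.zero_le s0)
    exact h4
  obtain ⟨t, ht, hts⟩ := key H F hH2 hdeg hH hstar x y hxy
    (lt_of_le_of_lt (Nat.pow_le_pow_right (by omega) h3) hcon)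
  have h5 := tri_cover (sz := sz') (W := WB) CB hWB1 ht
    (show Encodable.encode t < max s0 (Encodable.encode t + 1) by omega)
  rw [hs0 _ (le_max_left _ _), hts] at h5
  have h6 : tri lev sz' WB CB c N s0 < H ^ tri lev sz' WB CB c N s0 :=
    lt_of_lt_of_le Nat.lt_two_pow_self (Nat.pow_le_pow_left hH2 _)
  omega

/-- **The explicit algorithm.** -/
theorem trial : ∃ e : List ℤ × ℕ × ℕ → ℕ, Primrec e ∧ ∀ c : List ℤ, Deg3 (polyOf c) → ∀ n : ℕ,
    (Monotone fun s => e (c, n, s)) ∧ e (c, n, 0) = CB (max n 3) ∧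
      (Set.range fun s => e (c, n, s)).Finite ∧
      (Set.range fun s => e (c, n, s)).ncard ≤ (RF (polyOf c)).ncard + 1 ∧
      ∃ s0, (∀ s, s0 ≤ s → e (c, n, s) = e (c, n, s0)) ∧ Bnd (polyOf c) n (e (c, n, s0)) := by
  obtain ⟨e, he, h⟩ := trial_code
  refine ⟨fun p => e (toC p.1, p.2.1, p.2.2), he.comp ?_, fun c hc => ?_⟩
  · exact Primrec.pair (primrec_toC.comp Primrec.fst) (Primrec.pair
      (Primrec.fst.comp Primrec.snd) (Primrec.snd.comp Primrec.snd))
  · have h1 := h (toC c)
    rw [uni_toC] at h1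
    exact h1 hc

end Pool.Agent.H69.AL
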